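import Mathlib

set_option autoImplicit false

open NumberField Ideal Module
open scoped nonZeroDivisors

namespace Pool.Agent.Q136.CG

/-- private primes -/
theorem exists_private (K : Type) [Field K] [NumberField K] (R : ℕ) (A : Ideal (𝓞 K)) (hA : A ≠ ⊥) :
    ∃ r : Fin R → Ideal (𝓞 K), Function.Injective r ∧ (∀ i, (r i).IsMaximal) ∧ (∀ i, r i ≠ ⊥) ∧
      ∀ i, ¬ A ≤ r i := by
  have hN : absNorm A ≠ 0 := fun h => hA (absNorm_eq_zero_iff.1 h)
  let p : Fin R → ℕ := fun i => Nat.nth Nat.Prime (absNorm A + i)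
  have hp : ∀ i, (p i).Prime := fun i => Nat.prime_nth_prime _
  have hgt : ∀ i, absNorm A < p i := by
    intro i
    have h1 : absNorm A + (i : ℕ) + 2 ≤ p i := Nat.add_two_le_nth_prime _
    omega
  have hinj : ∀ i j, p i = p j → i = j := by
    intro i j h
    have := Nat.nth_injective Nat.infinite_setOfPred_prime h
    exact Fin.ext (by omega)
  have h1 : ∀ i, ∃ r : Ideal (𝓞 K), r.IsMaximal ∧ ((p i : ℕ) : 𝓞 K) ∈ r ∧ r ≠ ⊥ := by
    intro i
    have hmax : (span {(p i : ℤ)} : Ideal ℤ).IsMaximal := by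
      have : Prime (p i : ℤ) := Nat.prime_iff_prime_int.1 (hp i)
      exact PrincipalIdealRing.isMaximal_of_irreducible this.irreducible
    obtain ⟨r, hr, hr'⟩ := exists_maximal_ideal_liesOver_of_isIntegral (S := 𝓞 K) (span {(p i : ℤ)} : Ideal ℤ)
    have h2 := (Ideal.mem_of_liesOver r (span {(p i : ℤ)} : Ideal ℤ) (p i : ℤ)).1 (mem_span_singleton_self _)
    have h3 : ((p i : ℕ) : 𝓞 K) ∈ r := by simpa using h2
    refine ⟨r, hr, h3, ?_⟩
    rintro rfl
    have h4 : ((p i : ℕ) : 𝓞 K) = 0 := by simpa using h3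
    have h5 : p i = 0 := by exact_mod_cast h4
    exact (hp i).ne_zero h5
  choose r hr hpr hr0 using h1
  have hcop : ∀ i (n : ℕ), Nat.Coprime (p i) n → ((n : ℕ) : 𝓞 K) ∉ r i := by
    intro i n hn hmem
    have h2 : IsCoprime ((p i : ℕ) : ℤ) (n : ℤ) := Nat.isCoprime_iff_coprime.2 hn
    obtain ⟨u, v, huv⟩ := h2
    have h3 : (u : 𝓞 K) * (p i : ℕ) + v * (n : ℕ) = 1 := by exact_mod_cast congrArg (Int.cast : ℤ → 𝓞 K) huv
    refine (hr i).ne_top ((eq_top_iff_one _).2 ?_)
    rw [← h3]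
    exact (r i).add_mem ((r i).mul_mem_left _ (hpr i)) ((r i).mul_mem_left _ hmem)
  refine ⟨r, ?_, hr, hr0, ?_⟩
  · intro i j hij
    by_contra hne
    have h2 : p i ≠ p j := fun h => hne (hinj i j h)
    refine hcop i (p j) ((Nat.coprime_primes (hp i) (hp j)).2 h2) ?_
    rw [hij]
    exact hpr j
  · intro i hi
    refine hcop i (absNorm A) ?_ (hi (absNorm_mem A))
    exact ((hp i).coprime_iff_not_dvd).2 (Nat.not_dvd_of_pos_of_lt (Nat.pos_of_ne_zero hN) (hgt i))

theorem exists_data (K : Type) [Field K] [NumberField K] (l m : ℕ) (hl : l.Prime) (hm : 0 < m) {R : ℕ}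
    (f : Multiplicative (Fin R → ZMod m) →* ClassGroup (𝓞 K)) (hf : Function.Injective f) :
    ∃ (q : Fin R → Ideal (𝓞 K)) (c : Fin R → 𝓞 K), (∀ i, q i ≠ ⊥) ∧ (∀ i, q i ^ m = span {c i}) ∧
      (∀ e : Fin R → ℕ, (∏ i, q i ^ e i).IsPrincipal → ∀ i, m ∣ e i) ∧
      (∀ (h : Fin R → ℕ) (g : 𝓞 K), ∏ i, q i ^ (m * h i) = span {g ^ l} → ∀ i, l ∣ h i) := by
  classical
  let α : Fin R → ClassGroup (𝓞 K) := fun i => f (Multiplicative.ofAdd (Pi.single i 1))
  have ha : ∀ i, ∃ a : (Ideal (𝓞 K))⁰, ClassGroup.mk0 a = α i := fun i => ClassGroup.mk0_surjective (α i)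
  choose a ha using ha
  have ha0 : ∀ i, (a i).1 ≠ ⊥ := fun i => nonZeroDivisors.coe_ne_zero (a i)
  have hA0 : ∏ i, (a i).1 ≠ ⊥ := Finset.prod_ne_zero_iff.2 fun i _ => ha0 i
  obtain ⟨r, hrinj, hrmax, hr0, hrA⟩ := exists_private K R (∏ i, (a i).1) hA0
  have hra : ∀ i j, ¬ (a i).1 ≤ r j := by
    intro i j h
    exact hrA j ((Ideal.le_of_dvd (Finset.dvd_prod_of_mem (fun i => (a i).1) (Finset.mem_univ i))).trans h)
  have hpr : ∀ i, Prime (r i) := fun i => Ideal.prime_of_isPrime (hr0 i) (hrmax i).isPrime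
  have hy : ∀ i, ∃ y : 𝓞 K, y ∈ r i ∧ y ∉ r i ^ 2 := by
    intro i
    obtain ⟨x, hx, hx'⟩ := exists_mem_pow_notMem_pow_succ (r i) (hr0 i) (hrmax i).ne_top 1
    exact ⟨x, by simpa using hx, hx'⟩
  choose y hy1 hy2 using hy
  have hb : ∀ i, ∃ b : 𝓞 K, ∀ j, b - (if j = i then y i else 1) ∈ r j ^ 2 := by
    intro i
    obtain ⟨b, hb⟩ := IsDedekindDomain.exists_forall_sub_mem_ideal (s := Finset.univ) r (fun _ => 2)
      (fun j _ => hpr j) (fun j _ k _ h h' => h (hrinj h')) (fun j => if j.1 = i then y i else 1)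
    exact ⟨b, fun j => hb j (Finset.mem_univ j)⟩
  choose b hb using hb
  have hb1 : ∀ i, b i ∈ r i ∧ b i ∉ r i ^ 2 := by
    intro i
    have h1 := hb i i
    rw [if_pos rfl] at h1
    constructor
    · have := (r i).add_mem (Ideal.pow_le_self two_ne_zero h1) (hy1 i)
      simpa using this
    · intro h
      have := (r i ^ 2).sub_mem h h1
      rw [sub_sub_cancel] at this
      exact hy2 i this
  have hb2 : ∀ i j, j ≠ i → b i ∉ r j := by
    intro i j hij h
    have h1 := hb i j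
    rw [if_neg hij] at h1
    have := (r j).sub_mem h (Ideal.pow_le_self two_ne_zero h1)
    rw [sub_sub_cancel] at this
    exact (hrmax j).ne_top ((eq_top_iff_one _).2 this)
  have hb0 : ∀ i, b i ≠ 0 := fun i h => (hb1 i).2 (by rw [h]; exact (r i ^ 2).zero_mem)
  have hsb0 : ∀ i, (span {b i} : Ideal (𝓞 K)) ≠ ⊥ := fun i h => hb0 i (span_singleton_eq_bot.1 h)
  let q : Fin R → Ideal (𝓞 K) := fun i => span {b i} * (a i).1
  have hq : ∀ i, q i ≠ ⊥ := fun i => mul_ne_zero (hsb0 i) (ha0 i)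
  let q' : Fin R → (Ideal (𝓞 K))⁰ := fun i => ⟨q i, mem_nonZeroDivisors_of_ne_zero (hq i)⟩
  have hq' : ∀ i, ClassGroup.mk0 (q' i) = α i := by
    intro i
    have h1 : q' i = ⟨span {b i}, mem_nonZeroDivisors_of_ne_zero (hsb0 i)⟩ * a i := Subtype.ext rfl
    rw [h1, map_mul, ha, (ClassGroup.mk0_eq_one_iff _).2 ⟨_, rfl⟩, one_mul]
  have hem : ∀ i j, emultiplicity (r j) (q i) = if i = j then 1 else 0 := by
    intro i j
    change emultiplicity (r j) (span {b i} * (a i).1) = _
    rw [emultiplicity_mul (hpr j)]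
    have h1 : emultiplicity (r j) (a i).1 = 0 := emultiplicity_eq_zero.2 fun h => hra i j (Ideal.le_of_dvd h)
    rw [h1, add_zero]
    split_ifs with hij
    · subst hij
      have := (emultiplicity_eq_coe (a := r i) (b := span {b i}) (n := 1)).2 ⟨by
        rw [pow_one]
        exact Ideal.dvd_iff_le.2 ((span_singleton_le_iff_mem _).2 (hb1 i).1), fun h =>
          (hb1 i).2 (Ideal.le_of_dvd h (mem_span_singleton_self _))⟩
      simpa using this
    · exact emultiplicity_eq_zero.2 fun h =>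
        hb2 i j (fun h' => hij h'.symm) (Ideal.le_of_dvd h (mem_span_singleton_self _))
  have hα : ∀ e : Fin R → ℕ, ∏ i, α i ^ e i = f (Multiplicative.ofAdd fun i => (e i : ZMod m)) := by
    intro e
    have h1 : (Multiplicative.ofAdd fun i => (e i : ZMod m)) =
        ∏ i, (Multiplicative.ofAdd (Pi.single i 1 : Fin R → ZMod m)) ^ e i := by
      apply Multiplicative.toAdd.injective
      rw [toAdd_prod]
      funext j
      simp [Finset.sum_apply, Pi.single_apply]
    rw [h1, map_prod]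
    exact Finset.prod_congr rfl fun i _ => by rw [map_pow]
  have hA : ∀ e : Fin R → ℕ, (∏ i, q i ^ e i).IsPrincipal → ∀ i, m ∣ e i := by
    intro e he i
    have h1 : ClassGroup.mk0 (∏ i, q' i ^ e i) = 1 := by
      have h2 : ((∏ i, q' i ^ e i : (Ideal (𝓞 K))⁰) : Ideal (𝓞 K)).IsPrincipal := by
        rw [Submonoid.coe_finsetProd]
        simp only [SubmonoidClass.coe_pow]
        exact he
      generalize ∏ i, q' i ^ e i = M at h2 ⊢
      exact (ClassGroup.mk0_eq_one_iff M.2).2 h2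
    rw [map_prod] at h1
    simp only [map_pow, hq'] at h1
    rw [hα, map_eq_one_iff f hf] at h1
    have h2 := congrFun (congrArg Multiplicative.toAdd h1) i
    exact (ZMod.natCast_eq_zero_iff _ _).1 h2
  have hc : ∀ i, ∃ c : 𝓞 K, q i ^ m = span {c} := by
    intro i
    have h1 : ClassGroup.mk0 (q' i ^ m) = 1 := by
      have h2 := hα (Pi.single i m)
      have h3 : (fun j => ((Pi.single i m : Fin R → ℕ) j : ZMod m)) = 0 := by
        funext j
        by_cases hj : j = i
        · subst hj; simp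
        · simp [Pi.single_eq_of_ne hj]
      rw [h3, ofAdd_zero, map_one, Finset.prod_eq_single i] at h2
      · rw [map_pow, hq', ← h2, Pi.single_eq_same]
      · intro j _ hj
        rw [Pi.single_eq_of_ne hj, pow_zero]
      · intro h
        exact absurd (Finset.mem_univ i) h
    have h4 : ((q' i ^ m : (Ideal (𝓞 K))⁰) : Ideal (𝓞 K)).IsPrincipal := by
      generalize q' i ^ m = M at h1 ⊢
      exact (ClassGroup.mk0_eq_one_iff M.2).1 h1
    rw [SubmonoidClass.coe_pow] at h4
    obtain ⟨c, hc⟩ := h4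
    exact ⟨c, hc⟩
  choose c hc using hc
  refine ⟨q, c, hq, hc, hA, ?_⟩
  intro h g hg j
  have hg' : ∏ i, q i ^ (m * h i) = span {g} ^ l := by rw [hg, span_singleton_pow]
  have h1 : l ∣ m * h j := by
    have h2 := congrArg (emultiplicity (r j)) hg'
    rw [Finset.emultiplicity_prod (hpr j), emultiplicity_pow (hpr j), Finset.sum_eq_single j] at h2
    · rw [emultiplicity_pow (hpr j), hem, if_pos rfl, mul_one] at h2
      cases hE : emultiplicity (r j) (span {g}) with
      | top =>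
        rw [hE, ENat.mul_top (by exact_mod_cast hl.ne_zero)] at h2
        exact absurd h2 (ENat.natCast_ne_top _)
      | coe n =>
        rw [hE] at h2
        have h3 : m * h j = l * n := by exact_mod_cast h2
        exact ⟨n, h3⟩
    · intro i _ hij
      rw [emultiplicity_pow (hpr j), hem, if_neg hij, mul_zero]
    · intro h'
      exact absurd (Finset.mem_univ j) h'
  by_cases hlm : l ∣ m
  · obtain ⟨m', rfl⟩ := hlm
    have h2 : span {g} = ∏ i, q i ^ (m' * h i) := by
      have h3 : (span {g}) ^ l = (∏ i, q i ^ (m' * h i)) ^ l := by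
        rw [← hg', ← Finset.prod_pow]
        refine Finset.prod_congr rfl fun i _ => ?_
        rw [← pow_mul]
        congr 1
        ring
      exact (pow_left_inj hl.ne_zero).1 h3
    have h4 := hA (fun i => m' * h i) ⟨g, h2.symm⟩ j
    have h5 : m' * l ∣ m' * h j := by rw [mul_comm m' l]; exact h4
    have hm' : 0 < m' := Nat.pos_of_ne_zero (by rintro rfl; simp at hm)
    exact Nat.dvd_of_mul_dvd_mul_left hm' h5
  · exact ((Nat.Prime.coprime_iff_not_dvd hl).2 hlm).dvd_of_dvd_mul_left h1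

end Pool.Agent.Q136.CG
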