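import Mathlib

set_option autoImplicit false

namespace Pool.Agent.Q136.CG

/-- A family of elements of exponent `n` with few relations gives an embedding of `(ℤ/n)^r`. -/
theorem embed_large {G : Type*} [CommGroup G] {n : ℕ} (hn : 0 < n) {R C r : ℕ} (hR : r + C ≤ R) (b : Fin R → G)
    (hb : ∀ i, b i ^ n = 1)
    (hC : ∀ S : Finset (Fin R → ℕ), (∀ e ∈ S, (∀ i, e i < n) ∧ ∏ i, b i ^ e i = 1) → S.card ≤ C) :
    ∃ f : Multiplicative (Fin r → ZMod n) →* G, Function.Injective f := by
  classical
  have : NeZero n := ⟨hn.ne'⟩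
  rcases R.eq_zero_or_pos with h0 | h0
  · obtain rfl : r = 0 := by omega
    exact ⟨1, Function.injective_of_subsingleton _⟩
  have : Nonempty (Fin R) := ⟨⟨0, h0⟩⟩
  have hmod : ∀ (i : Fin R) (k : ℕ), b i ^ (k % n) = b i ^ k := fun i k => (pow_eq_pow_mod k (hb i)).symm
  let S : Finset (Fin R → ℕ) := (Fintype.piFinset fun _ : Fin R => Finset.range n).filter fun e => ∏ i, b i ^ e i = 1
  have hS : ∀ e, e ∈ S ↔ (∀ i, e i < n) ∧ ∏ i, b i ^ e i = 1 := by
    intro e
    rw [Finset.mem_filter, Fintype.mem_piFinset]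
    simp only [Finset.mem_range]
  have hScard : S.card ≤ C := hC S fun e he => (hS e).1 he
  have hR0 : ∀ e ∈ S.erase 0, ∃ i, e i ≠ 0 := by
    intro e he
    rw [Finset.mem_erase] at he
    by_contra h
    push Not at h
    exact he.1 (funext h)
  choose! idx hidx using hR0
  let U : Finset (Fin R) := (S.erase 0).image idx
  have hU : U.card ≤ C := (Finset.card_image_le.trans (Finset.card_le_card (Finset.erase_subset _ _))).trans hScard
  have hT : r ≤ (Finset.univ \ U).card := by
    rw [Finset.card_sdiff_of_subset (Finset.subset_univ U), Finset.card_univ, Fintype.card_fin]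
    omega
  obtain ⟨T, hTU, hTr⟩ := Finset.exists_subset_card_eq hT
  let ι : Fin r ↪o Fin R := T.orderEmbOfFin hTr
  have hιT : ∀ j, ι j ∉ U := fun j => by
    have h1 : ι j ∈ T := Finset.orderEmbOfFin_mem T hTr j
    exact (Finset.mem_sdiff.1 (hTU h1)).2
  let f : Multiplicative (Fin r → ZMod n) →* G :=
    { toFun := fun e => ∏ j, b (ι j) ^ (Multiplicative.toAdd e j).val
      map_one' := by
        refine Finset.prod_eq_one fun i _ => ?_
        simp
      map_mul' := by
        intro e e'
        rw [← Finset.prod_mul_distrib]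
        refine Finset.prod_congr rfl fun i _ => ?_
        rw [toAdd_mul, Pi.add_apply, ZMod.val_add, hmod, pow_add] }
  refine ⟨f, (injective_iff_map_eq_one f).2 fun e he => ?_⟩
  have he' : ∏ j, b (ι j) ^ (Multiplicative.toAdd e j).val = 1 := he
  let g : Fin R → ℕ := Function.extend ι (fun j => (Multiplicative.toAdd e j).val) 0
  have hgι : ∀ j, g (ι j) = (Multiplicative.toAdd e j).val := fun j => ι.injective.extend_apply _ _ j
  have hg0 : ∀ i, (¬ ∃ j, ι j = i) → g i = 0 := fun i hi => Function.extend_apply' _ _ i hi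
  have hgS : g ∈ S := by
    rw [hS]
    constructor
    · intro i
      by_cases hi : ∃ j, ι j = i
      · obtain ⟨j, rfl⟩ := hi
        rw [hgι]
        exact ZMod.val_lt _
      · rw [hg0 i hi]
        exact hn
    · rw [← he']
      have h1 : ∏ i ∈ Finset.univ.image ι, b i ^ g i = ∏ i, b i ^ g i := by
        refine Finset.prod_subset (Finset.subset_univ _) fun i _ hi => ?_
        rw [hg0 i, pow_zero]
        rintro ⟨j, rfl⟩
        exact hi (Finset.mem_image_of_mem _ (Finset.mem_univ j))
      rw [← h1, Finset.prod_image fun a _ b _ h => ι.injective h]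
      exact Finset.prod_congr rfl fun j _ => by rw [hgι]
  have hgz : g = 0 := by
    by_contra h
    have h1 : g ∈ S.erase 0 := Finset.mem_erase.2 ⟨h, hgS⟩
    have h2 := hidx g h1
    by_cases hi : ∃ j, ι j = idx g
    · obtain ⟨j, hj⟩ := hi
      refine hιT j ?_
      rw [hj]
      exact Finset.mem_image_of_mem idx h1
    · exact h2 (hg0 _ hi)
  refine Multiplicative.toAdd.injective (funext fun j => ?_)
  have h1 := hgι j
  rw [hgz] at h1
  have h2 : (Multiplicative.toAdd e j).val = 0 := h1.symm
  exact (ZMod.val_eq_zero _).1 h2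

end Pool.Agent.Q136.CG
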