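import Pool.Agent.Q136.CG.Norm

set_option autoImplicit false

open NumberField Ideal Polynomial UniqueFactorizationMonoid
open scoped nonZeroDivisors

namespace Pool.Agent.Q136.CG

/-- an element with valuation one at given primes -/
theorem exists_val_one (K : Type) [Field K] [NumberField K] (P : Finset (Ideal (𝓞 K)))
    (hP : ∀ p ∈ P, p ≠ ⊥ ∧ p.IsPrime) :
    ∃ a : 𝓞 K, ∀ p ∈ P, a ∈ p ∧ a ∉ p ^ 2 := by
  have h1 : ∀ p : P, ∃ x : 𝓞 K, x ∈ p.1 ∧ x ∉ p.1 ^ 2 := by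
    intro p
    obtain ⟨x, hx, hx'⟩ := exists_mem_pow_notMem_pow_succ p.1 (hP p.1 p.2).1 (hP p.1 p.2).2.ne_top 1
    exact ⟨x, by simpa using hx, hx'⟩
  choose x hx using h1
  obtain ⟨a, ha⟩ := IsDedekindDomain.exists_forall_sub_mem_ideal (s := P) (fun p => p) (fun _ => 2)
    (fun p hp => Ideal.prime_of_isPrime (hP p hp).1 (hP p hp).2) (fun p _ q _ h => h) x
  refine ⟨a, fun p hp => ⟨?_, fun h => ?_⟩⟩
  · have h2 := p.add_mem (Ideal.pow_le_self two_ne_zero (ha p hp)) (hx ⟨p, hp⟩).1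
    simpa using h2
  · have h2 := (p ^ 2).sub_mem h (ha p hp)
    rw [sub_sub_cancel] at h2
    exact (hx ⟨p, hp⟩).2 h2

theorem key (K L : Type) [Field K] [NumberField K] [Field L] [NumberField L] [Algebra K L] (k : ℕ)
    (hk : k ≠ 0) (hfr : Module.finrank K L = k) (a : 𝓞 K) (t : 𝓞 L)
    (ht : t ^ k = algebraMap (𝓞 K) (𝓞 L) a) (p : Ideal (𝓞 K)) (hp : p ≠ ⊥) (hpp : p.IsPrime)
    (ha : a ∈ p) (ha2 : a ∉ p ^ 2) : ∃ Q : Ideal (𝓞 L), Q ≠ ⊥ ∧ relNorm (𝓞 K) Q = p := by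
  have hmax : p.IsMaximal := hpp.isMaximal hp
  obtain ⟨Q, hQ, hQp⟩ := exists_maximal_ideal_liesOver_of_isIntegral (S := 𝓞 L) p
  have hfr' : Module.finrank (𝓞 K) (𝓞 L) = k := by
    rw [← IsFractionRing.finrank_eq (𝓞 K) K (𝓞 L) L, hfr]
  have hn : relNorm (𝓞 K) (span {t}) = span {a} := by
    have h1 : relNorm (𝓞 K) (span {t}) ^ k = (span {a}) ^ k := by
      rw [← map_pow, span_singleton_pow, ht, ← Set.image_singleton, ← map_span, relNorm_algebraMap, hfr']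
    exact (pow_left_inj hk).1 h1
  have htQ : t ∈ Q := by
    refine hQ.isPrime.mem_of_pow_mem k ?_
    rw [ht]
    exact (Ideal.mem_of_liesOver Q p a).1 ha
  have h2 : span {a} ≤ relNorm (𝓞 K) Q := by
    rw [← hn]
    exact relNorm_mono (𝓞 K) ((span_singleton_le_iff_mem _).2 htQ)
  have h3 := relNorm_eq_pow_of_isMaximal Q p
  have h4 : Q.inertiaDeg (𝓞 K) = 1 := by
    have h5 : 0 < Q.inertiaDeg (𝓞 K) := inertiaDeg_pos Q (𝓞 K)
    by_contra h6
    have h7 : 2 ≤ Q.inertiaDeg (𝓞 K) := by omega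
    rw [h3] at h2
    exact ha2 (Ideal.pow_le_pow_right h7 (h2 (mem_span_singleton_self a)))
  refine ⟨Q, Ideal.ne_bot_of_liesOver_of_ne_bot hp Q, ?_⟩
  rw [h3, h4, pow_one]

theorem exists_ext (K : Type) [Field K] [NumberField K] (k : ℕ) (hk : 1 ≤ k) (P : Finset (Ideal (𝓞 K)))
    (hP : ∀ p ∈ P, p ≠ ⊥ ∧ p.IsPrime) (hne : P.Nonempty) :
    ∃ (L : Type) (_ : Field L) (_ : NumberField L) (_ : Algebra K L), Module.finrank K L = k ∧
      ∀ p ∈ P, ∃ Q : Ideal (𝓞 L), Q ≠ ⊥ ∧ relNorm (𝓞 K) Q = p := by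
  obtain ⟨a, ha⟩ := exists_val_one K P hP
  obtain ⟨p₀, hp₀⟩ := hne
  have hgm : (X ^ k - C a : (𝓞 K)[X]).Monic := monic_X_pow_sub_C a (by omega)
  have hgd : (X ^ k - C a : (𝓞 K)[X]).natDegree = k := natDegree_X_pow_sub_C
  have heis : (X ^ k - C a : (𝓞 K)[X]).IsEisensteinAt p₀ := by
    refine ⟨?_, ?_, ?_⟩
    · rw [hgm.leadingCoeff]
      exact fun h => (hP p₀ hp₀).2.ne_top ((eq_top_iff_one _).2 h)
    · intro n hn
      rw [hgd] at hn
      rw [coeff_sub, coeff_X_pow, if_neg (by omega), zero_sub, coeff_C]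
      split_ifs
      · exact p₀.neg_mem (ha p₀ hp₀).1
      · simp
    · rw [coeff_sub, coeff_X_pow, if_neg (by omega), zero_sub, coeff_C_zero, neg_mem_iff]
      exact (ha p₀ hp₀).2
  have hirr : Irreducible (X ^ k - C a : (𝓞 K)[X]) :=
    heis.irreducible (hP p₀ hp₀).2 hgm.isPrimitive (by rw [hgd]; omega)
  have hirr' : Irreducible ((X ^ k - C a : (𝓞 K)[X]).map (algebraMap (𝓞 K) K)) :=
    (hgm.irreducible_iff_irreducible_map_fraction_map).1 hirr
  set f : K[X] := (X ^ k - C a : (𝓞 K)[X]).map (algebraMap (𝓞 K) K) with hf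
  have hfd : f.natDegree = k := by rw [hf, hgm.natDegree_map, hgd]
  have hf0 : f ≠ 0 := hirr'.ne_zero
  have : Fact (Irreducible f) := ⟨hirr'⟩
  have : FiniteDimensional K (AdjoinRoot f) := (AdjoinRoot.powerBasis hf0).finite
  have : CharZero (AdjoinRoot f) := charZero_of_injective_algebraMap (algebraMap K (AdjoinRoot f)).injective
  have : NumberField (AdjoinRoot f) := NumberField.of_module_finite K (AdjoinRoot f)
  have hfr : Module.finrank K (AdjoinRoot f) = k := by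
    rw [(AdjoinRoot.powerBasis hf0).finrank, AdjoinRoot.powerBasis_dim, hfd]
  have hroot : (AdjoinRoot.root f) ^ k = algebraMap K (AdjoinRoot f) (a : K) := by
    have hfe : f = X ^ k - C (algebraMap (𝓞 K) K a) := by
      rw [hf, Polynomial.map_sub, Polynomial.map_pow, Polynomial.map_X, Polynomial.map_C]
    have h1 : Polynomial.eval₂ (AdjoinRoot.of f) (AdjoinRoot.root f) (X ^ k - C (algebraMap (𝓞 K) K a)) = 0 := by
      rw [← hfe]
      exact AdjoinRoot.eval₂_root f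
    rw [eval₂_sub, eval₂_pow, eval₂_X, eval₂_C, sub_eq_zero] at h1
    exact h1
  have hint : IsIntegral ℤ (AdjoinRoot.root f) := by
    refine IsIntegral.of_pow (n := k) (by omega) ?_
    rw [hroot]
    exact (RingOfIntegers.isIntegral_coe a).algebraMap
  refine ⟨AdjoinRoot f, inferInstance, inferInstance, inferInstance, hfr, fun p hp => ?_⟩
  refine key K (AdjoinRoot f) k (by omega) hfr a ⟨AdjoinRoot.root f, hint⟩ ?_ p (hP p hp).1 (hP p hp).2
    (ha p hp).1 (ha p hp).2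
  refine RingOfIntegers.ext ?_
  change (AdjoinRoot.root f) ^ k = _
  rw [hroot]
  rfl

open Classical in
/-- Every number field has extensions of every degree for which the norm map of the class groups is
surjective. -/
theorem exists_surj (K : Type) [Field K] [NumberField K] (k : ℕ) (hk : 1 ≤ k) :
    ∃ (L : Type) (_ : Field L) (_ : NumberField L) (_ : Algebra K L), Module.finrank K L = k ∧
      Function.Surjective (normHom (𝓞 K) (𝓞 L)) := by
  obtain ⟨p₀, hp₀, hp₀'⟩ := Ring.not_isField_iff_exists_prime.1 (RingOfIntegers.not_isField K)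
  let I : ClassGroup (𝓞 K) → (Ideal (𝓞 K))⁰ := Function.surjInv ClassGroup.mk0_surjective
  let P : Finset (Ideal (𝓞 K)) := insert p₀ (Finset.univ.biUnion fun c => (normalizedFactors (I c).1).toFinset)
  have hI : ∀ c, (I c).1 ≠ 0 := fun c => nonZeroDivisors.coe_ne_zero (I c)
  have hP : ∀ p ∈ P, p ≠ ⊥ ∧ p.IsPrime := by
    intro p hp
    rcases Finset.mem_insert.1 hp with rfl | hp
    · exact ⟨hp₀, hp₀'⟩
    · obtain ⟨c, -, hc⟩ := Finset.mem_biUnion.1 hp
      have h1 := prime_of_normalized_factor p (Multiset.mem_toFinset.1 hc)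
      exact ⟨h1.ne_zero, Ideal.isPrime_of_prime h1⟩
  obtain ⟨L, i1, i2, i3, hL, hQ⟩ := exists_ext K k hk P hP ⟨p₀, Finset.mem_insert_self _ _⟩
  refine ⟨L, i1, i2, i3, hL, fun c => ?_⟩
  have h2 : ∀ s : Multiset (Ideal (𝓞 K)), (∀ p ∈ s, ∃ Q : Ideal (𝓞 L), Q ≠ ⊥ ∧ relNorm (𝓞 K) Q = p) →
      ∃ J : Ideal (𝓞 L), J ≠ ⊥ ∧ relNorm (𝓞 K) J = s.prod := by
    intro s
    induction s using Multiset.induction_on with
    | empty =>
      intro _
      exact ⟨⊤, top_ne_bot, by rw [relNorm_top, Multiset.prod_zero, one_eq_top]⟩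
    | cons p s ih =>
      intro h
      obtain ⟨J, hJ, hJ'⟩ := ih fun q hq => h q (Multiset.mem_cons_of_mem hq)
      obtain ⟨Q, hQ, hQ'⟩ := h p (Multiset.mem_cons_self p s)
      exact ⟨Q * J, mul_ne_zero hQ hJ, by rw [map_mul, hQ', hJ', Multiset.prod_cons]⟩
  obtain ⟨J, hJ, hJ'⟩ := h2 (normalizedFactors (I c).1) fun p hp => hQ p (Finset.mem_insert_of_mem
    (Finset.mem_biUnion.2 ⟨c, Finset.mem_univ _, Multiset.mem_toFinset.2 hp⟩))
  rw [Ideal.prod_normalizedFactors_eq_self (hI c)] at hJ'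
  refine ⟨ClassGroup.mk0 ⟨J, mem_nonZeroDivisors_of_ne_zero hJ⟩, ?_⟩
  rw [normHom_mk0]
  have h3 : nm (𝓞 K) (𝓞 L) ⟨J, mem_nonZeroDivisors_of_ne_zero hJ⟩ = I c := Subtype.ext hJ'
  rw [h3]
  exact Function.surjInv_eq ClassGroup.mk0_surjective c

end Pool.Agent.Q136.CG
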