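import Pool.Agent.Q136.CG.Ext

set_option autoImplicit false

open NumberField Ideal Polynomial UniqueFactorizationMonoid
open scoped nonZeroDivisors

namespace Pool.Agent.Q136.CG

/-- A prime at which `a = t ^ k` has valuation one is a `k`-th power in `L`. -/
theorem key2 (K L : Type) [Field K] [NumberField K] [Field L] [NumberField L] [Algebra K L] (k : ℕ)
    (a : 𝓞 K) (t : 𝓞 L) (ht : t ^ k = algebraMap (𝓞 K) (𝓞 L) a) (p : Ideal (𝓞 K)) (hp : p ≠ ⊥)
    (hpp : p.IsPrime) (ha : a ∈ p) (ha2 : a ∉ p ^ 2) :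
    ∃ Q : Ideal (𝓞 L), Q ^ k = p.map (algebraMap (𝓞 K) (𝓞 L)) := by
  have hmax : p.IsMaximal := hpp.isMaximal hp
  obtain ⟨q, hq⟩ := Ideal.dvd_iff_le.2 ((span_singleton_le_iff_mem p).2 ha)
  have hqp : ¬ q ≤ p := by
    intro h
    refine ha2 ?_
    have h1 : span {a} ≤ p ^ 2 := by
      rw [hq, sq]
      exact Ideal.mul_mono_right h
    exact h1 (mem_span_singleton_self a)
  have hcop : IsCoprime p q := by
    rw [Ideal.isCoprime_iff_sup_eq]
    by_contra h
    exact hqp (le_sup_right.trans (hmax.eq_of_le h le_sup_left).ge)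
  have hcop' : IsCoprime (p.map (algebraMap (𝓞 K) (𝓞 L))) (q.map (algebraMap (𝓞 K) (𝓞 L))) := by
    rw [Ideal.isCoprime_iff_sup_eq] at hcop ⊢
    rw [← Ideal.map_sup, hcop, Ideal.map_top]
  obtain ⟨Q, hQ⟩ := exists_eq_pow_of_mul_eq_pow_of_coprime (c := span {t}) (n := k) hcop' (by
    rw [← Ideal.map_mul, ← hq, span_singleton_pow, ht, map_span, Set.image_singleton])
  exact ⟨Q, hQ.symm⟩

/-- extensions in which given ideals become `k`-th powers -/
theorem exists_ext2 (K : Type) [Field K] [NumberField K] (k : ℕ) (hk : 1 ≤ k) (P : Finset (Ideal (𝓞 K)))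
    (hP : ∀ p ∈ P, p ≠ ⊥ ∧ p.IsPrime) (hne : P.Nonempty) :
    ∃ (L : Type) (_ : Field L) (_ : NumberField L) (_ : Algebra K L), Module.finrank K L = k ∧
      ∀ p ∈ P, ∃ Q : Ideal (𝓞 L), Q ^ k = p.map (algebraMap (𝓞 K) (𝓞 L)) := by
  obtain ⟨a, ha⟩ := exists_val_one K P hP
  obtain ⟨p₀, hp₀⟩ := hne
  have hgm : (X ^ k - C a : (𝓞 K)[X]).Monic := monic_X_pow_sub_C a (by omega)
  have hgd : (X ^ k - C a : (𝓞 K)[X]).natDegree = k := natDegree_X_pow_sub_C
  have heis : (X ^ k - C a : (𝓞 K)[X]).IsEisensteinAt p₀ := by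
    refine ⟨?_, ?_, ?_⟩
    · rw [hgm.leadingCoeff]
      exact fun h => (hP p₀ hp₀).2.ne_top ((eq_top_iff_one _).2 h)
    · intro n hn
      rw [hgd] at hn
      rw [coeff_sub, coeff_X_pow, if_neg (by omega), zero_sub, coeff_C]
      split_ifs
      · exact p₀.neg_mem (ha p₀ hp₀).1
      · simp
    · rw [coeff_sub, coeff_X_pow, if_neg (by omega), zero_sub, coeff_C_zero, neg_mem_iff]
      exact (ha p₀ hp₀).2
  have hirr : Irreducible (X ^ k - C a : (𝓞 K)[X]) :=
    heis.irreducible (hP p₀ hp₀).2 hgm.isPrimitive (by rw [hgd]; omega)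
  have hirr' : Irreducible ((X ^ k - C a : (𝓞 K)[X]).map (algebraMap (𝓞 K) K)) :=
    (hgm.irreducible_iff_irreducible_map_fraction_map).1 hirr
  set f : K[X] := (X ^ k - C a : (𝓞 K)[X]).map (algebraMap (𝓞 K) K) with hf
  have hfd : f.natDegree = k := by rw [hf, hgm.natDegree_map, hgd]
  have hf0 : f ≠ 0 := hirr'.ne_zero
  have : Fact (Irreducible f) := ⟨hirr'⟩
  have : FiniteDimensional K (AdjoinRoot f) := (AdjoinRoot.powerBasis hf0).finite
  have : CharZero (AdjoinRoot f) := charZero_of_injective_algebraMap (algebraMap K (AdjoinRoot f)).injective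
  have : NumberField (AdjoinRoot f) := NumberField.of_module_finite K (AdjoinRoot f)
  have hfr : Module.finrank K (AdjoinRoot f) = k := by
    rw [(AdjoinRoot.powerBasis hf0).finrank, AdjoinRoot.powerBasis_dim, hfd]
  have hroot : (AdjoinRoot.root f) ^ k = algebraMap K (AdjoinRoot f) (a : K) := by
    have hfe : f = X ^ k - C (algebraMap (𝓞 K) K a) := by
      rw [hf, Polynomial.map_sub, Polynomial.map_pow, Polynomial.map_X, Polynomial.map_C]
    have h1 : Polynomial.eval₂ (AdjoinRoot.of f) (AdjoinRoot.root f) (X ^ k - C (algebraMap (𝓞 K) K a)) = 0 := by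
      rw [← hfe]
      exact AdjoinRoot.eval₂_root f
    rw [eval₂_sub, eval₂_pow, eval₂_X, eval₂_C, sub_eq_zero] at h1
    exact h1
  have hint : IsIntegral ℤ (AdjoinRoot.root f) := by
    refine IsIntegral.of_pow (n := k) (by omega) ?_
    rw [hroot]
    exact (RingOfIntegers.isIntegral_coe a).algebraMap
  refine ⟨AdjoinRoot f, inferInstance, inferInstance, inferInstance, hfr, fun p hp => ?_⟩
  refine key2 K (AdjoinRoot f) k a ⟨AdjoinRoot.root f, hint⟩ ?_ p (hP p hp).1 (hP p hp).2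
    (ha p hp).1 (ha p hp).2
  refine RingOfIntegers.ext ?_
  change (AdjoinRoot.root f) ^ k = _
  rw [hroot]
  rfl

open Classical in
/-- extensions of degree `k` in which given nonzero ideals become `k`-th powers -/
theorem exists_ext3 (K : Type) [Field K] [NumberField K] (k : ℕ) (hk : 1 ≤ k) {R : ℕ} (q : Fin R → Ideal (𝓞 K))
    (hq : ∀ i, q i ≠ ⊥) :
    ∃ (L : Type) (_ : Field L) (_ : NumberField L) (_ : Algebra K L), Module.finrank K L = k ∧
      ∀ i, ∃ Q : Ideal (𝓞 L), Q ≠ ⊥ ∧ Q ^ k = (q i).map (algebraMap (𝓞 K) (𝓞 L)) ∧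
        relNorm (𝓞 K) Q = q i := by
  obtain ⟨p₀, hp₀, hp₀'⟩ := Ring.not_isField_iff_exists_prime.1 (RingOfIntegers.not_isField K)
  let P : Finset (Ideal (𝓞 K)) := insert p₀ (Finset.univ.biUnion fun i => (normalizedFactors (q i)).toFinset)
  have hP : ∀ p ∈ P, p ≠ ⊥ ∧ p.IsPrime := by
    intro p hp
    rcases Finset.mem_insert.1 hp with rfl | hp
    · exact ⟨hp₀, hp₀'⟩
    · obtain ⟨c, -, hc⟩ := Finset.mem_biUnion.1 hp
      have h1 := prime_of_normalized_factor p (Multiset.mem_toFinset.1 hc)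
      exact ⟨h1.ne_zero, Ideal.isPrime_of_prime h1⟩
  obtain ⟨L, i1, i2, i3, hL, hQ⟩ := exists_ext2 K k hk P hP ⟨p₀, Finset.mem_insert_self _ _⟩
  refine ⟨L, i1, i2, i3, hL, fun i => ?_⟩
  have h2 : ∀ s : Multiset (Ideal (𝓞 K)),
      (∀ p ∈ s, ∃ Q : Ideal (𝓞 L), Q ^ k = p.map (algebraMap (𝓞 K) (𝓞 L))) →
      ∃ J : Ideal (𝓞 L), J ^ k = s.prod.map (algebraMap (𝓞 K) (𝓞 L)) := by
    intro s
    induction s using Multiset.induction_on with
    | empty =>
      intro _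
      exact ⟨⊤, by rw [Multiset.prod_zero, one_eq_top, Ideal.map_top, ← one_eq_top, one_pow]⟩
    | cons p s ih =>
      intro h
      obtain ⟨J, hJ⟩ := ih fun q hq => h q (Multiset.mem_cons_of_mem hq)
      obtain ⟨Q, hQ⟩ := h p (Multiset.mem_cons_self p s)
      exact ⟨Q * J, by rw [mul_pow, hJ, hQ, Multiset.prod_cons, Ideal.map_mul]⟩
  obtain ⟨J, hJ⟩ := h2 (normalizedFactors (q i)) fun p hp => hQ p (Finset.mem_insert_of_mem
    (Finset.mem_biUnion.2 ⟨i, Finset.mem_univ _, Multiset.mem_toFinset.2 hp⟩))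
  rw [Ideal.prod_normalizedFactors_eq_self (hq i)] at hJ
  have hfr' : Module.finrank (𝓞 K) (𝓞 L) = k := by
    rw [← IsFractionRing.finrank_eq (𝓞 K) K (𝓞 L) L, hL]
  have hn : relNorm (𝓞 K) J = q i := by
    have h3 : relNorm (𝓞 K) J ^ k = (q i) ^ k := by
      rw [← map_pow, hJ, relNorm_algebraMap, hfr']
    exact (pow_left_inj (by omega)).1 h3
  refine ⟨J, ?_, hJ, hn⟩
  rintro rfl
  rw [relNorm_bot] at hn
  exact hq i hn.symm

end Pool.Agent.Q136.CG
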