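import Mathlib

set_option autoImplicit false

open Ideal

namespace Pool.Agent.Q136.CG

theorem ideal_identity {R : Type*} [CommRing R] (s : R) (l m X y z : ℤ) (hs : s ^ 2 = -((m : R) * l))
    (he : X ^ 2 = m * y ^ 2 + l * z ^ 2) (h1 : IsCoprime X (2 * l * z)) (h2 : IsCoprime X y)
    (h3 : IsCoprime l (m * y)) :
    span {(X : R), (l : R) * z + y * s} ^ 2 * span {(l : R), s} = span {(l : R) * z + y * s} := by
  have he' : (X : R) ^ 2 = m * (y : R) ^ 2 + l * (z : R) ^ 2 := by exact_mod_cast congrArg (Int.cast : ℤ → R) he
  set A : R := (l : R) * z + y * s with hA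
  apply le_antisymm
  · rw [sq, Ideal.mul_le]
    intro r hr t ht
    obtain ⟨e, f, rfl⟩ := Ideal.mem_span_pair.1 ht
    refine Submodule.mul_induction_on hr ?_ ?_
    · intro u hu v hv
      obtain ⟨a, b, rfl⟩ := Ideal.mem_span_pair.1 hu
      obtain ⟨c, d, rfl⟩ := Ideal.mem_span_pair.1 hv
      refine Ideal.mem_span_singleton'.2 ⟨a * c * (e * (l * z - y * s) + f * (z * s + m * y)) +
        (a * d * X + b * c * X + b * d * A) * (e * l + f * s), ?_⟩
      rw [hA]
      linear_combination (-(a * c * e * y ^ 2) + a * c * f * z * y) * hs - a * c * (e * l + f * s) * he'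
    · intro u v hu hv
      rw [add_mul]
      exact Ideal.add_mem _ hu hv
  · rw [span_singleton_le_iff_mem]
    set M : Ideal R := span {(X : R), A} ^ 2 * span {(l : R), s} with hM
    have hX : (X : R) ∈ span {(X : R), A} := Ideal.subset_span (by simp)
    have hAm : A ∈ span {(X : R), A} := Ideal.subset_span (by simp)
    have hl : (l : R) ∈ span {(l : R), s} := Ideal.subset_span (by simp)
    have hsm : s ∈ span {(l : R), s} := Ideal.subset_span (by simp)
    have mem : ∀ u ∈ span {(X : R), A}, ∀ v ∈ span {(X : R), A}, ∀ w ∈ span {(l : R), s}, u * v * w ∈ M := by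
      intro u hu v hv w hw
      rw [hM, sq]
      exact Ideal.mul_mem_mul (Ideal.mul_mem_mul hu hv) hw
    have q1 : (l * z - y * s) * A ∈ M := by
      have := mem X hX X hX l hl
      convert this using 1
      rw [hA]
      linear_combination (-(y : R) ^ 2) * hs - (l : R) * he'
    have q2 : (l * X : R) * A ∈ M := by
      have := mem X hX A hAm l hl
      convert this using 1
      ring
    have q3 : (l * A : R) * A ∈ M := by
      have := mem A hAm A hAm l hl
      convert this using 1
      ring
    have q4 : (z * s + m * y : R) * A ∈ M := by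
      have := mem X hX X hX s hsm
      convert this using 1
      rw [hA]
      linear_combination ((z : R) * y) * hs - s * he'
    have q5 : (X * s : R) * A ∈ M := by
      have := mem X hX A hAm s hsm
      convert this using 1
      ring
    have q6 : (2 * l * z * l : R) * A ∈ M := by
      have := M.add_mem (M.mul_mem_left (l : R) q1) q3
      convert this using 1
      rw [hA]
      ring
    have q7 : (l : R) * A ∈ M := by
      obtain ⟨u, v, huv⟩ := h1
      have huv' : (u : R) * X + v * (2 * l * z) = 1 := by exact_mod_cast congrArg (Int.cast : ℤ → R) huv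
      have := M.add_mem (M.mul_mem_left (u : R) q2) (M.mul_mem_left (v : R) q6)
      convert this using 1
      linear_combination (-(l : R) * A) * huv'
    have q8 : (y * s : R) * A ∈ M := by
      have := M.sub_mem (M.mul_mem_left (z : R) q7) q1
      convert this using 1
      ring
    have q9 : s * A ∈ M := by
      obtain ⟨u, v, huv⟩ := h2
      have huv' : (u : R) * X + v * y = 1 := by exact_mod_cast congrArg (Int.cast : ℤ → R) huv
      have := M.add_mem (M.mul_mem_left (u : R) q5) (M.mul_mem_left (v : R) q8)
      convert this using 1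
      linear_combination (-s * A) * huv'
    have q10 : (m * y : R) * A ∈ M := by
      have := M.sub_mem q4 (M.mul_mem_left (z : R) q9)
      convert this using 1
      ring
    obtain ⟨u, v, huv⟩ := h3
    have huv' : (u : R) * l + v * (m * y) = 1 := by exact_mod_cast congrArg (Int.cast : ℤ → R) huv
    have := M.add_mem (M.mul_mem_left (u : R) q7) (M.mul_mem_left (v : R) q10)
    convert this using 1
    linear_combination (-A) * huv'

theorem sq_identity {R : Type*} [CommRing R] (s : R) (l m : ℤ) (hs : s ^ 2 = -((m : R) * l))
    (h : IsCoprime l m) : span {(l : R), s} ^ 2 = span {(l : R)} := by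
  obtain ⟨u, v, huv⟩ := h
  have huv' : (u : R) * l + v * m = 1 := by exact_mod_cast congrArg (Int.cast : ℤ → R) huv
  apply le_antisymm
  · rw [sq, Ideal.mul_le]
    intro r hr t ht
    obtain ⟨a, b, rfl⟩ := Ideal.mem_span_pair.1 hr
    obtain ⟨c, d, rfl⟩ := Ideal.mem_span_pair.1 ht
    refine Ideal.mem_span_singleton'.2 ⟨a * c * l + a * d * s + b * c * s - b * d * m, ?_⟩
    linear_combination (-(b * d)) * hs
  · rw [span_singleton_le_iff_mem]
    have hl : (l : R) ∈ span {(l : R), s} := Ideal.subset_span (by simp)
    have hsm : s ∈ span {(l : R), s} := Ideal.subset_span (by simp)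
    set M := span {(l : R), s} ^ 2 with hM
    have m1 : (l : R) * l ∈ M := by rw [hM, sq]; exact Ideal.mul_mem_mul hl hl
    have m2 : s * s ∈ M := by rw [hM, sq]; exact Ideal.mul_mem_mul hsm hsm
    have := M.sub_mem (M.mul_mem_left (u : R) m1) (M.mul_mem_left (v : R) m2)
    convert this using 1
    linear_combination (-(l : R)) * huv' + (v : R) * hs

/-- Elements `b i` of a commutative group with `b i ^ 4 = 1` such that the squares `b i ^ 2` are independent
give an embedding of `(ℤ/4)^t`. -/
theorem embed {G : Type*} [CommGroup G] {t : ℕ} (b : Fin t → G) (hb : ∀ i, b i ^ 4 = 1)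
    (hind : ∀ J : Finset (Fin t), ∏ i ∈ J, b i ^ 2 = 1 → J = ∅) :
    ∃ f : Multiplicative (Fin t → ZMod 4) →* G, Function.Injective f := by
  classical
  have hmod : ∀ (i : Fin t) (n : ℕ), b i ^ (n % 4) = b i ^ n := fun i n => (pow_eq_pow_mod n (hb i)).symm
  let f : Multiplicative (Fin t → ZMod 4) →* G :=
    { toFun := fun e => ∏ i, b i ^ (Multiplicative.toAdd e i).val
      map_one' := by
        refine Finset.prod_eq_one fun i _ => ?_
        simp
      map_mul' := by
        intro e e'
        rw [← Finset.prod_mul_distrib]
        refine Finset.prod_congr rfl fun i _ => ?_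
        rw [toAdd_mul, Pi.add_apply, ZMod.val_add, hmod, pow_add] }
  refine ⟨f, (injective_iff_map_eq_one f).2 fun e he => ?_⟩
  have he' : ∏ i, b i ^ (Multiplicative.toAdd e i).val = 1 := he
  -- the parity of the exponents
  have hodd : (Finset.univ.filter fun i => (Multiplicative.toAdd e i).val % 2 = 1) = ∅ := by
    refine hind _ ?_
    rw [Finset.prod_filter]
    have h1 : (∏ i, b i ^ (Multiplicative.toAdd e i).val) ^ 2 = 1 := by rw [he', one_pow]
    rw [← Finset.prod_pow] at h1
    refine (Finset.prod_congr rfl fun i _ => ?_).trans h1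
    split_ifs with h
    · rw [← pow_mul, ← hmod i ((Multiplicative.toAdd e i).val * 2)]
      congr 1
      have := ZMod.val_lt (Multiplicative.toAdd e i)
      omega
    · rw [← pow_mul, ← hmod i ((Multiplicative.toAdd e i).val * 2)]
      have : (Multiplicative.toAdd e i).val * 2 % 4 = 0 := by
        have := ZMod.val_lt (Multiplicative.toAdd e i)
        omega
      rw [this, pow_zero]
  have heven : ∀ i, (Multiplicative.toAdd e i).val % 2 = 0 := by
    intro i
    by_contra h
    have : i ∈ (Finset.univ.filter fun i => (Multiplicative.toAdd e i).val % 2 = 1) := by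
      rw [Finset.mem_filter]
      exact ⟨Finset.mem_univ _, by omega⟩
    rw [hodd] at this
    simp at this
  have htwo : (Finset.univ.filter fun i => (Multiplicative.toAdd e i).val = 2) = ∅ := by
    refine hind _ ?_
    rw [Finset.prod_filter]
    refine (Finset.prod_congr rfl fun i _ => ?_).trans he'
    split_ifs with h
    · rw [h]
    · have h1 := heven i
      have h2 := ZMod.val_lt (Multiplicative.toAdd e i)
      have : (Multiplicative.toAdd e i).val = 0 := by omega
      rw [this, pow_zero]
  have hall : ∀ i, Multiplicative.toAdd e i = 0 := by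
    intro i
    rw [← ZMod.val_eq_zero]
    by_contra h
    have h1 := heven i
    have h2 := ZMod.val_lt (Multiplicative.toAdd e i)
    have : i ∈ (Finset.univ.filter fun i => (Multiplicative.toAdd e i).val = 2) := by
      rw [Finset.mem_filter]
      exact ⟨Finset.mem_univ _, by omega⟩
    rw [htwo] at this
    simp at this
  exact Multiplicative.toAdd.injective (funext hall)

end Pool.Agent.Q136.CG
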