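import Mathlib

set_option autoImplicit false

namespace Pool.Agent.Q136.CG

/-- `t` distinct primes `1` modulo `8` which are squares modulo each other -/
theorem primes (t : ℕ) : ∃ p : Fin t → ℕ, Function.Injective p ∧ (∀ i, (p i).Prime) ∧ (∀ i, p i % 8 = 1) ∧
    ∀ i j, i ≠ j → IsSquare ((p i : ℕ) : ZMod (p j)) := by
  induction t with
  | zero => exact ⟨fun i => i.elim0, fun i => i.elim0, fun i => i.elim0, fun i => i.elim0, fun i => i.elim0⟩
  | succ t ih =>
    obtain ⟨p, hinj, hpr, h8, hsq⟩ := ih
    have hprod : ∏ i, p i ≠ 0 := Finset.prod_ne_zero_iff.2 fun i _ => (hpr i).ne_zero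
    obtain ⟨q, hq, hgt, hmod⟩ := Nat.exists_prime_gt_modEq_one (k := 8 * ∏ i, p i) (∏ i, p i)
      (mul_ne_zero (by norm_num) hprod)
    have hle : ∀ i, p i ≤ ∏ j, p j := fun i =>
      Nat.le_of_dvd (Nat.pos_of_ne_zero hprod) (Finset.dvd_prod_of_mem p (Finset.mem_univ i))
    have hne : ∀ i, p i ≠ q := fun i h => by
      have := hle i
      omega
    have hq8 : q % 8 = 1 := by
      have := hmod.of_mul_right (∏ i, p i)
      have h2 : q % 8 = 1 % 8 := this
      omega
    have hqi : ∀ i, ((q : ℕ) : ZMod (p i)) = 1 := by
      intro i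
      have h1 : q ≡ 1 [MOD p i] := (hmod.of_mul_left 8).of_dvd (Finset.dvd_prod_of_mem p (Finset.mem_univ i))
      have := (ZMod.natCast_eq_natCast_iff q 1 (p i)).2 h1
      simpa using this
    refine ⟨Fin.snoc p q, ?_, ?_, ?_, ?_⟩
    · intro i j
      refine Fin.lastCases ?_ (fun i => ?_) i <;> refine Fin.lastCases ?_ (fun j => ?_) j
      · intro _; rfl
      · intro h
        simp only [Fin.snoc_last, Fin.snoc_castSucc] at h
        exact absurd h.symm (hne j)
      · intro h
        simp only [Fin.snoc_last, Fin.snoc_castSucc] at h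
        exact absurd h (hne i)
      · intro h
        simp only [Fin.snoc_castSucc] at h
        rw [hinj h]
    · intro i
      refine Fin.lastCases ?_ (fun i => ?_) i
      · simpa using hq
      · simpa using hpr i
    · intro i
      refine Fin.lastCases ?_ (fun i => ?_) i
      · simpa using hq8
      · simpa using h8 i
    · intro i j
      refine Fin.lastCases ?_ (fun i => ?_) i <;> refine Fin.lastCases ?_ (fun j => ?_) j
      · intro h; exact absurd rfl h
      · intro _
        rw [Fin.snoc_last, Fin.snoc_castSucc, hqi j]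
        exact IsSquare.one
      · intro _
        rw [Fin.snoc_last, Fin.snoc_castSucc]
        have : Fact q.Prime := ⟨hq⟩
        have : Fact (p i).Prime := ⟨hpr i⟩
        have h2 : p i ≠ 2 := fun h => by
          have := h8 i
          omega
        rw [ZMod.exists_sq_eq_prime_iff_of_mod_four_eq_one (p := q) (q := p i) (by omega) h2, hqi i]
        exact IsSquare.one
      · intro h
        rw [Fin.snoc_castSucc, Fin.snoc_castSucc]
        exact hsq i j fun h' => h (by rw [h'])

end Pool.Agent.Q136.CG
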