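import Pool.Agent.H528R2.Legendre

set_option autoImplicit false

namespace Pool.Agent.Q136.CG

theorem dvd_of_sq_dvd {n : ℕ} (hn : Squarefree n) {q : ℕ} (hq : q.Prime) {y : ℤ}
    (h : (q : ℤ) ^ 2 ∣ n * y ^ 2) : (q : ℤ) ∣ y := by
  by_contra hy
  have hqp : Prime (q : ℤ) := Nat.prime_iff_prime_int.1 hq
  have h1 : IsCoprime ((q : ℤ) ^ 2) (y ^ 2) := (hqp.coprime_iff_not_dvd.2 hy).pow
  have h2 : (q : ℤ) ^ 2 ∣ n := h1.dvd_of_dvd_mul_right h
  have h3 : q * q ∣ n := by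
    rw [← sq]
    exact_mod_cast h2
  exact hq.one_lt.ne' (Nat.isUnit_iff.1 (hn _ h3))

/-- primitive solutions of `X² = m y² + l z²`, `m` even, `m l` squarefree. -/
theorem primitive {m l : ℕ} (hm : 0 < m) (hl : l.Prime) (hml : Squarefree (m * l)) (h2 : Even m)
    (h : ∃ x y z : ℤ, (x, y, z) ≠ (0, 0, 0) ∧ x ^ 2 = m * y ^ 2 + l * z ^ 2) :
    ∃ x y z : ℤ, x ^ 2 = m * y ^ 2 + l * z ^ 2 ∧ IsCoprime x (2 * l * z) ∧ IsCoprime x y ∧
      IsCoprime (l : ℤ) (m * y) := by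
  classical
  have hmsq : Squarefree m := hml.of_mul_left
  have hlsq : Squarefree l := hl.squarefree
  have hcop : Nat.Coprime m l := Nat.coprime_of_squarefree_mul hml
  -- minimal solution
  have hne : ∃ n : ℕ, 0 < n ∧ ∃ x y z : ℤ, x.natAbs = n ∧ x ^ 2 = m * y ^ 2 + l * z ^ 2 := by
    obtain ⟨x, y, z, hne, he⟩ := h
    refine ⟨x.natAbs, ?_, x, y, z, rfl, he⟩
    rw [Nat.pos_iff_ne_zero, Ne, Int.natAbs_eq_zero]
    rintro rfl
    have hm' : (0 : ℤ) < m := by exact_mod_cast hm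
    have hl' : (0 : ℤ) < l := by exact_mod_cast hl.pos
    have hy : y ^ 2 = 0 := by nlinarith [sq_nonneg y, sq_nonneg z, mul_nonneg hm'.le (sq_nonneg y), mul_nonneg hl'.le (sq_nonneg z)]
    have hz : z ^ 2 = 0 := by nlinarith [sq_nonneg y, sq_nonneg z, mul_nonneg hm'.le (sq_nonneg y), mul_nonneg hl'.le (sq_nonneg z)]
    exact hne (by rw [pow_eq_zero_iff two_ne_zero] at hy hz; rw [hy, hz])
  obtain ⟨hn0, x, y, z, hxn, he⟩ := Nat.find_spec hne
  have hmin := fun k (hk : k < Nat.find hne) => Nat.find_min hne hk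
  have hprim : ∀ q : ℕ, q.Prime → (q : ℤ) ∣ x → (q : ℤ) ∣ y → (q : ℤ) ∣ z → False := by
    rintro q hq ⟨x', hx'⟩ ⟨y', hy'⟩ ⟨z', hz'⟩
    have hq0 : (q : ℤ) ≠ 0 := by exact_mod_cast hq.ne_zero
    have hx0 : x'.natAbs ≠ 0 := by
      intro h0
      rw [Int.natAbs_eq_zero] at h0
      rw [h0, mul_zero] at hx'
      rw [hx'] at hxn
      simp only [Int.natAbs_zero] at hxn
      omega
    refine hmin x'.natAbs ?_ ⟨Nat.pos_of_ne_zero hx0, x', y', z', rfl, ?_⟩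
    · rw [← hxn, hx', Int.natAbs_mul, Int.natAbs_natCast]
      have := hq.two_le
      nlinarith [Nat.pos_of_ne_zero hx0]
    · have h5 : (q : ℤ) ^ 2 * x' ^ 2 = (q : ℤ) ^ 2 * (m * y' ^ 2 + l * z' ^ 2) := by
        rw [hx', hy', hz'] at he
        linear_combination he
      exact mul_left_cancel₀ (pow_ne_zero 2 hq0) h5
  have hp2 : ((2 : ℕ) : ℤ) = 2 := rfl
  -- (i)
  have c1 : ∀ q : ℕ, q.Prime → (q : ℤ) ∣ x → (q : ℤ) ∣ z → False := by
    intro q hq hx hz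
    refine hprim q hq hx ?_ hz
    refine dvd_of_sq_dvd hmsq hq ?_
    have h5 : (m : ℤ) * y ^ 2 = x ^ 2 - l * z ^ 2 := by linarith
    rw [h5]
    exact dvd_sub (pow_dvd_pow_of_dvd hx 2) ((pow_dvd_pow_of_dvd hz 2).mul_left _)
  -- (iii)
  have hlp : Prime (l : ℤ) := Nat.prime_iff_prime_int.1 hl
  have hlm : ¬ (l : ℤ) ∣ m := by
    intro h5
    have h6 : l ∣ m := by exact_mod_cast h5
    have h7 := hcop.symm.eq_one_of_dvd h6
    exact hl.one_lt.ne' h7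
  have c3 : ¬ (l : ℤ) ∣ x := by
    intro hx
    have h5 : (l : ℤ) ∣ m * y ^ 2 := by
      have : (m : ℤ) * y ^ 2 = x ^ 2 - l * z ^ 2 := by linarith
      rw [this]
      exact dvd_sub (hx.trans (dvd_pow_self x two_ne_zero)) (Dvd.intro _ rfl)
    have hy : (l : ℤ) ∣ y := by
      rcases hlp.dvd_or_dvd h5 with h6 | h6
      · exact absurd h6 hlm
      · exact hlp.dvd_of_dvd_pow h6
    refine c1 l hl hx (dvd_of_sq_dvd hlsq hl ?_)
    have : (l : ℤ) * z ^ 2 = x ^ 2 - m * y ^ 2 := by linarith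
    rw [this]
    exact dvd_sub (pow_dvd_pow_of_dvd hx 2) ((pow_dvd_pow_of_dvd hy 2).mul_left _)
  -- (iv)
  have c4 : ∀ q : ℕ, q.Prime → (q : ℤ) ∣ x → (q : ℤ) ∣ y → False := by
    intro q hq hx hy
    refine hprim q hq hx hy (dvd_of_sq_dvd hlsq hq ?_)
    have : (l : ℤ) * z ^ 2 = x ^ 2 - m * y ^ 2 := by linarith
    rw [this]
    exact dvd_sub (pow_dvd_pow_of_dvd hx 2) ((pow_dvd_pow_of_dvd hy 2).mul_left _)
  have cy : ¬ (l : ℤ) ∣ y := by
    intro hy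
    refine c3 (hlp.dvd_of_dvd_pow (n := 2) ?_)
    rw [he]
    exact dvd_add ((hy.trans (dvd_pow_self y two_ne_zero)).mul_left _) (Dvd.intro _ rfl)
  have coprime_of : ∀ a c : ℤ, (∀ q : ℕ, q.Prime → (q : ℤ) ∣ a → (q : ℤ) ∣ c → False) → IsCoprime a c := by
    intro a c h5
    rw [Int.isCoprime_iff_gcd_eq_one]
    by_contra h6
    obtain ⟨q, hq, hqd⟩ := Nat.exists_prime_and_dvd h6
    exact h5 q hq ((Int.natCast_dvd_natCast.2 hqd).trans (Int.gcd_dvd_left ..))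
      ((Int.natCast_dvd_natCast.2 hqd).trans (Int.gcd_dvd_right ..))
  have hxl : IsCoprime x (l : ℤ) := (hlp.coprime_iff_not_dvd.2 c3).symm
  have hxz : IsCoprime x z := coprime_of x z c1
  have hx2 : IsCoprime x 2 := by
    refine coprime_of x 2 fun q hq hx hq2 => ?_
    have hq2' : q = 2 := by
      have : q ∣ 2 := by exact_mod_cast hq2
      exact (Nat.prime_dvd_prime_iff_eq hq Nat.prime_two).1 this
    subst hq2'
    have h5 : ((2 : ℕ) : ℤ) ∣ l * z ^ 2 := by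
      have : (l : ℤ) * z ^ 2 = x ^ 2 - m * y ^ 2 := by linarith
      rw [this]
      refine dvd_sub (hx.trans (dvd_pow_self x two_ne_zero)) (Dvd.dvd.mul_right ?_ _)
      exact_mod_cast h2.two_dvd
    have h2p : Prime ((2 : ℕ) : ℤ) := Nat.prime_iff_prime_int.1 Nat.prime_two
    rcases h2p.dvd_or_dvd h5 with h6 | h6
    · have h7 : 2 ∣ l := by exact_mod_cast h6
      have h8 : (2 : ℕ) = l := (Nat.prime_dvd_prime_iff_eq Nat.prime_two hl).1 h7
      rw [← h8] at c3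
      exact c3 hx
    · exact c1 2 Nat.prime_two hx (h2p.dvd_of_dvd_pow h6)
  refine ⟨x, y, z, he, (hx2.mul_right hxl).mul_right hxz, coprime_of x y c4, ?_⟩
  exact (hlp.coprime_iff_not_dvd.2 hlm).mul_right (hlp.coprime_iff_not_dvd.2 cy)

end Pool.Agent.Q136.CG
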