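import Pool.Agent.Q136.CG.Quad
import Pool.Agent.Q136.CG.Sol
import Pool.Agent.Q136.CG.Idl
import Pool.Agent.Q136.CG.Primes

set_option autoImplicit false

open NumberField Ideal Module Polynomial
open scoped nonZeroDivisors

namespace Pool.Agent.Q136.CG

theorem exists_quad (D : ℕ) (hD : 0 < D) :
    ∃ (K : Type) (_ : Field K) (_ : NumberField K) (x : K), finrank ℚ K = 2 ∧ x ^ 2 = -(D : K) := by
  have hirr : Irreducible (X ^ 2 - C (-(D : ℚ)) : ℚ[X]) := by
    refine X_pow_sub_C_irreducible_of_prime Nat.prime_two fun b hb => ?_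
    have h5 : (0 : ℚ) < D := by exact_mod_cast hD
    nlinarith [sq_nonneg b]
  set f : ℚ[X] := X ^ 2 - C (-(D : ℚ)) with hf
  have hf0 : f ≠ 0 := hirr.ne_zero
  have hfd : f.natDegree = 2 := natDegree_X_pow_sub_C
  have : Fact (Irreducible f) := ⟨hirr⟩
  have : FiniteDimensional ℚ (AdjoinRoot f) := (AdjoinRoot.powerBasis hf0).finite
  have : CharZero (AdjoinRoot f) := charZero_of_injective_algebraMap (algebraMap ℚ (AdjoinRoot f)).injective
  have : NumberField (AdjoinRoot f) := NumberField.of_module_finite ℚ (AdjoinRoot f)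
  refine ⟨AdjoinRoot f, inferInstance, inferInstance, AdjoinRoot.root f, ?_, ?_⟩
  · rw [(AdjoinRoot.powerBasis hf0).finrank, AdjoinRoot.powerBasis_dim, hfd]
  · have h1 : Polynomial.eval₂ (AdjoinRoot.of f) (AdjoinRoot.root f) (X ^ 2 - C (-(D : ℚ))) = 0 :=
      AdjoinRoot.eval₂_root f
    rw [eval₂_sub, eval₂_pow, eval₂_X, eval₂_C, sub_eq_zero] at h1
    rw [h1, map_neg, map_natCast]

theorem cl1 {R : Type*} [CommRing R] [IsDedekindDomain R] (I J : (Ideal R)⁰)
    (h : (I.1 ^ 2 * J.1).IsPrincipal) : ClassGroup.mk0 I ^ 2 * ClassGroup.mk0 J = 1 := by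
  rw [← map_pow, ← map_mul]
  have h' : ((I ^ 2 * J : (Ideal R)⁰) : Ideal R).IsPrincipal := by
    rw [Submonoid.coe_mul, SubmonoidClass.coe_pow]
    exact h
  generalize I ^ 2 * J = M at h' ⊢
  exact (ClassGroup.mk0_eq_one_iff M.2).2 h'

theorem cl2 {R : Type*} [CommRing R] [IsDedekindDomain R] (J : (Ideal R)⁰)
    (h : (J.1 ^ 2).IsPrincipal) : ClassGroup.mk0 J ^ 2 = 1 := by
  rw [← map_pow]
  have h' : ((J ^ 2 : (Ideal R)⁰) : Ideal R).IsPrincipal := by
    rw [SubmonoidClass.coe_pow]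
    exact h
  generalize J ^ 2 = M at h' ⊢
  exact (ClassGroup.mk0_eq_one_iff M.2).2 h'

theorem cl3 {R : Type*} [CommRing R] [IsDedekindDomain R] {ι : Type*} (S : Finset ι) (J : ι → (Ideal R)⁰)
    (h : ∏ i ∈ S, ClassGroup.mk0 (J i) = 1) : (∏ i ∈ S, (J i).1).IsPrincipal := by
  rw [← map_prod] at h
  have h3 := (ClassGroup.mk0_eq_one_iff (∏ i ∈ S, J i).2).1 h
  rwa [Submonoid.coe_finsetProd] at h3

/-- For every `t` there is an imaginary quadratic field whose class group contains `(ℤ/4)^t`. -/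
theorem four (t : ℕ) : ∃ (K : Type) (_ : Field K) (_ : NumberField K), finrank ℚ K = 2 ∧
    ∃ f : Multiplicative (Fin t → ZMod 4) →* ClassGroup (𝓞 K), Function.Injective f := by
  classical
  obtain ⟨p, hinj, hpr, h8, hsq⟩ := primes t
  -- the products
  have hcop : ∀ i j, i ≠ j → Nat.Coprime (p i) (p j) := fun i j h =>
    (Nat.coprime_primes (hpr i) (hpr j)).2 fun h' => h (hinj h')
  have hsf : ∀ J : Finset (Fin t), Squarefree (∏ i ∈ J, p i) := by
    intro J
    refine Finset.squarefree_prod_of_pairwise_isCoprime ?_ fun i _ => (hpr i).squarefree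
    intro i _ j _ h
    exact Nat.coprime_iff_isRelPrime.1 (hcop i j h)
  have hodd : ∀ J : Finset (Fin t), Odd (∏ i ∈ J, p i) := by
    intro J
    refine Finset.prod_induction p Odd (fun a b ha hb => ha.mul hb) odd_one fun i _ => ?_
    rw [Nat.odd_iff]
    have := h8 i
    omega
  set D : ℕ := 2 * ∏ i, p i with hDdef
  have hD0 : 0 < D := Nat.mul_pos two_pos (Finset.prod_pos fun i _ => (hpr i).pos)
  have hDsf : Squarefree D := by
    rw [hDdef, Nat.squarefree_mul ((Nat.coprime_two_left).2 (hodd _))]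
    exact ⟨Nat.prime_two.squarefree, hsf _⟩
  have hD4 : D % 4 = 2 := by
    have := hodd Finset.univ
    rw [Nat.odd_iff] at this
    omega
  obtain ⟨K, i1, i2, x, h2, hx⟩ := exists_quad D hD0
  have hint : IsIntegral ℤ x := by
    refine IsIntegral.of_pow (n := 2) two_pos ?_
    rw [hx]
    have h3 := (isIntegral_algebraMap (R := ℤ) (A := K) (x := (D : ℤ))).neg
    simpa using h3
  obtain ⟨s, hs⟩ : ∃ s : 𝓞 K, (s : K) = x := ⟨⟨x, hint⟩, rfl⟩
  have hsD : s ^ 2 = -(D : 𝓞 K) := by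
    refine FaithfulSMul.algebraMap_injective (𝓞 K) K ?_
    rw [map_pow, map_neg, map_natCast]
    change (s : K) ^ 2 = _
    rw [hs, hx]
  -- the cofactors
  let a : Fin t → ℕ := fun i => ∏ j ∈ Finset.univ.erase i, p j
  have hai : ∀ i, 2 * a i * p i = D := by
    intro i
    rw [hDdef, mul_assoc, mul_comm (a i), Finset.mul_prod_erase Finset.univ p (Finset.mem_univ i)]
  have hacop : ∀ i, Nat.Coprime (a i) (p i) := by
    intro i
    refine Nat.Coprime.prod_left fun j hj => hcop j i ?_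
    exact (Finset.mem_erase.1 hj).1
  have hsol : ∀ i, ∃ X y z : ℤ, X ^ 2 = ((2 * a i : ℕ) : ℤ) * y ^ 2 + (p i : ℤ) * z ^ 2 ∧
      IsCoprime X (2 * (p i : ℤ) * z) ∧ IsCoprime X y ∧ IsCoprime (p i : ℤ) (((2 * a i : ℕ) : ℤ) * y) := by
    intro i
    have h3 := Pool.Agent.H528R2.legendre_special (r := 1) (a := a i) (l := p i) squarefree_one (hsf _) (hpr i)
      odd_one (hodd _) (by rw [Nat.odd_iff]; have := h8 i; omega) (Nat.coprime_one_left _)
      (Nat.coprime_one_left _) (hacop i) (fun q hq hq1 => absurd (Nat.dvd_one.1 hq1) hq.one_lt.ne') ?_ ?_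
    · refine primitive (m := 2 * a i) (l := p i) (Nat.mul_pos two_pos (Finset.prod_pos fun j _ => (hpr j).pos))
        (hpr i) (by rw [hai i]; exact hDsf) (even_two_mul _) ?_
      obtain ⟨X, y, z, h4, h5⟩ := h3
      refine ⟨X, y, z, h4, ?_⟩
      push_cast at h5 ⊢
      linarith
    · intro q hq hqa
      obtain ⟨j, hj, hqj⟩ := (hq.prime.dvd_finsetProd_iff p).1 hqa
      have h6 : q = p j := (Nat.prime_dvd_prime_iff_eq hq (hpr j)).1 hqj
      rw [mul_one, h6]
      exact hsq i j fun h => (Finset.mem_erase.1 hj).1 h.symm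
    · have : Fact (p i).Prime := ⟨hpr i⟩
      rw [mul_one]
      push_cast
      refine IsSquare.mul ?_ ?_
      · rw [ZMod.exists_sq_eq_two_iff (by have := h8 i; omega)]
        exact Or.inl (h8 i)
      · change IsSquare ((∏ j ∈ Finset.univ.erase i, p j : ℕ) : ZMod (p i))
        rw [Nat.cast_prod]
        refine Finset.prod_induction _ IsSquare (fun _ _ => IsSquare.mul) IsSquare.one fun j hj => ?_
        exact hsq j i (Finset.mem_erase.1 hj).1
  choose X y z hXe hc1 hc2 hc3 using hsol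
  have hsi : ∀ i, s ^ 2 = -((((2 * a i : ℕ) : ℤ) : 𝓞 K) * ((p i : ℤ) : 𝓞 K)) := by
    intro i
    rw [hsD, ← hai i]
    push_cast
    ring
  let P : Fin t → Ideal (𝓞 K) := fun i => span {((p i : ℤ) : 𝓞 K), s}
  let B : Fin t → Ideal (𝓞 K) := fun i => span {((X i : ℤ) : 𝓞 K), ((p i : ℤ) : 𝓞 K) * (z i : ℤ) + (y i : ℤ) * s}
  have hp0 : ∀ i, ((p i : ℤ) : 𝓞 K) ≠ 0 := fun i => by
    have := (hpr i).ne_zero
    exact_mod_cast this
  have hX0 : ∀ i, ((X i : ℤ) : 𝓞 K) ≠ 0 := by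
    intro i h
    have h3 : X i = 0 := by exact_mod_cast h
    have h4 := hc1 i
    rw [h3, isCoprime_zero_left] at h4
    have h5 : (2 : ℤ) ∣ 2 * (p i : ℤ) * z i := ⟨p i * z i, by ring⟩
    have h6 := isUnit_of_dvd_unit h5 h4
    rw [Int.isUnit_iff] at h6
    omega
  have hP0 : ∀ i, P i ≠ ⊥ := fun i h => hp0 i (by
    have : ((p i : ℤ) : 𝓞 K) ∈ P i := Ideal.subset_span (by simp)
    rw [h] at this
    simpa using this)
  have hB0 : ∀ i, B i ≠ ⊥ := fun i h => hX0 i (by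
    have : ((X i : ℤ) : 𝓞 K) ∈ B i := Ideal.subset_span (by simp)
    rw [h] at this
    simpa using this)
  have hBP : ∀ i, (B i ^ 2 * P i).IsPrincipal := fun i =>
    ⟨_, ideal_identity s (p i) ((2 * a i : ℕ) : ℤ) (X i) (y i) (z i) (hsi i) (hXe i) (hc1 i) (hc2 i) (hc3 i)⟩
  have hpa : ∀ i, IsCoprime (p i : ℤ) ((2 * a i : ℕ) : ℤ) := fun i => (hc3 i).of_mul_right_left
  have hPP : ∀ i, P i ^ 2 = span {((p i : ℤ) : 𝓞 K)} := fun i => sq_identity s (p i) _ (hsi i) (hpa i)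
  have hnP : ∀ i, absNorm (P i) = p i := by
    intro i
    have h3 : absNorm (P i) ^ 2 = p i ^ 2 := by
      rw [← map_pow, hPP, absNorm_span_singleton]
      have h4 : Algebra.norm ℤ ((p i : ℤ) : 𝓞 K) = (p i : ℤ) ^ 2 := by
        have := Algebra.norm_algebraMap (S := 𝓞 K) (p i : ℤ)
        rw [RingOfIntegers.rank, h2] at this
        exact this
      rw [h4, Int.natAbs_pow, Int.natAbs_natCast]
    exact Nat.pow_left_injective two_ne_zero h3
  let P' : Fin t → (Ideal (𝓞 K))⁰ := fun i => ⟨P i, mem_nonZeroDivisors_of_ne_zero (hP0 i)⟩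
  let B' : Fin t → (Ideal (𝓞 K))⁰ := fun i => ⟨B i, mem_nonZeroDivisors_of_ne_zero (hB0 i)⟩
  have e1 : ∀ i, ClassGroup.mk0 (B' i) ^ 2 * ClassGroup.mk0 (P' i) = 1 := fun i => cl1 _ _ (hBP i)
  have e2 : ∀ i, ClassGroup.mk0 (P' i) ^ 2 = 1 := fun i => cl2 _ ⟨_, hPP i⟩
  have e3 : ∀ i, ClassGroup.mk0 (B' i) ^ 2 = ClassGroup.mk0 (P' i) := by
    intro i
    rw [mul_eq_one_iff_eq_inv.1 (e1 i), inv_eq_iff_mul_eq_one, ← sq, e2 i]
  refine ⟨K, i1, i2, h2, embed (fun i => ClassGroup.mk0 (B' i)) ?_ ?_⟩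
  · intro i
    rw [show (4 : ℕ) = 2 * 2 from rfl, pow_mul, e3, e2]
  · intro J hJ
    simp only [e3] at hJ
    obtain ⟨β, hβ⟩ := cl3 J P' hJ
    have h4 : (∏ i ∈ J, P i) = span {β} := hβ
    have h5 : absNorm (span {β}) = ∏ i ∈ J, p i := by
      rw [← h4, map_prod]
      exact Finset.prod_congr rfl fun i _ => hnP i
    have h6 := principal hD0 h2 x hx hDsf hD4 β _ h5 (by
      rw [hDdef]
      refine Nat.mul_le_mul_left 2 (Nat.le_of_dvd (Finset.prod_pos fun i _ => (hpr i).pos) ?_)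
      exact Finset.prod_dvd_prod_of_subset J Finset.univ p (Finset.subset_univ J)) (hsf J)
    rw [Finset.eq_empty_iff_forall_notMem]
    intro i hi
    have h7 : p i ∣ 1 := by
      rw [← h6]
      exact Finset.dvd_prod_of_mem p hi
    exact (hpr i).one_lt.ne' (Nat.dvd_one.1 h7)

end Pool.Agent.Q136.CG
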