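import Mathlib

set_option autoImplicit false

open NumberField Module Polynomial

namespace Pool.Agent.Q136.CG

/-- the trace of a radical of prime degree -/
theorem trace_radical {K L : Type*} [Field K] [Field L] [Algebra K L] [FiniteDimensional K L] {l : ℕ}
    (hl : l.Prime) (δ : L) (c : K) (h : δ ^ l = algebraMap K L c) (hc : ∀ g : K, g ^ l ≠ c) :
    Algebra.trace K L δ = 0 := by
  have hirr : Irreducible (X ^ l - C c : K[X]) := X_pow_sub_C_irreducible_of_prime hl hc
  have hm : minpoly K δ = X ^ l - C c := by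
    refine (minpoly.eq_of_irreducible_of_monic hirr ?_ (monic_X_pow_sub_C c hl.ne_zero)).symm
    rw [map_sub, map_pow, aeval_X, aeval_C, h, sub_self]
  rw [trace_eq_finrank_mul_minpoly_nextCoeff, hm]
  have h1 : (X ^ l - C c : K[X]).nextCoeff = 0 := by
    have h2 : (X ^ l - C c : K[X]).natDegree = l := natDegree_X_pow_sub_C
    rw [nextCoeff_of_natDegree_pos (by rw [h2]; exact hl.pos), h2, coeff_sub, coeff_X_pow,
      if_neg (by have := hl.pos; omega), coeff_C, if_neg (by have := hl.two_le; omega), sub_zero]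
  rw [h1, neg_zero, mul_zero]

/-- Radicals of prime degree in different classes are linearly independent. -/
theorem card_radicals {K L : Type*} [Field K] [CharZero K] [Field L] [Algebra K L] [FiniteDimensional K L] {l : ℕ}
    (hl : l.Prime) {ι : Type*} (S : Finset ι) (γ : ι → L) (h0 : ∀ i ∈ S, γ i ≠ 0)
    (h : ∀ i ∈ S, ∀ j ∈ S, i ≠ j → ∃ c : K, (γ i / γ j) ^ l = algebraMap K L c ∧ ∀ g : K, g ^ l ≠ c) :
    S.card ≤ finrank K L := by
  classical
  have hli : LinearIndependent K (fun i : S => γ i.1) := by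
    rw [Fintype.linearIndependent_iff]
    intro g hg j
    have h1 : ∑ i : S, g i • (γ i.1 / γ j.1) = 0 := by
      have h2 : (∑ i : S, g i • γ i.1) * (γ j.1)⁻¹ = 0 := by rw [hg, zero_mul]
      rw [Finset.sum_mul] at h2
      rw [← h2]
      refine Finset.sum_congr rfl fun i _ => ?_
      rw [smul_mul_assoc, div_eq_mul_inv]
    have ht1 : Algebra.trace K L 1 = (finrank K L : K) := by
      rw [← map_one (algebraMap K L), Algebra.trace_algebraMap, nsmul_eq_mul, mul_one]
    have h3 := congrArg (Algebra.trace K L) h1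
    rw [map_sum, map_zero, Finset.sum_eq_single j] at h3
    · rw [div_self (h0 j.1 j.2), map_smul, ht1, smul_eq_mul, mul_eq_zero] at h3
      rcases h3 with h3 | h3
      · exact h3
      · have : (finrank K L : K) ≠ 0 := by
          have h4 : 0 < finrank K L := finrank_pos
          exact_mod_cast h4.ne'
        exact absurd h3 this
    · intro i _ hij
      obtain ⟨c, hc, hc'⟩ := h i.1 i.2 j.1 j.2 fun h' => hij (Subtype.ext h')
      rw [map_smul, trace_radical hl _ c hc hc', smul_zero]
    · intro h'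
      exact absurd (Finset.mem_univ j) h'
  have := hli.fintype_card_le_finrank
  rwa [Fintype.card_coe] at this

/-- The units of a number field of degree `n` fall into at most `l ^ n` classes modulo `l`-th powers. -/
theorem unit_classes (L : Type) [Field L] [NumberField L] (l : ℕ) (hl : 0 < l) :
    ∃ (κ : Type) (_ : Fintype κ) (φ : (𝓞 L)ˣ → κ), Fintype.card κ ≤ l ^ finrank ℚ L ∧
      ∀ u v, φ u = φ v → ∃ w : (𝓞 L)ˣ, u = v * w ^ l := by
  classical
  have : NeZero l := ⟨hl.ne'⟩
  obtain ⟨ζ, hζ⟩ := IsCyclic.exists_generator (α := Units.torsion L)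
  have h1 : ∀ u : (𝓞 L)ˣ, ∃ (a : ℤ) (e : Fin (Units.rank L) → ℤ),
      u = (ζ : (𝓞 L)ˣ) ^ a * ∏ i, Units.fundSystem L i ^ e i := by
    intro u
    obtain ⟨⟨z, e⟩, hze, -⟩ := Units.exist_unique_eq_mul_prod L u
    obtain ⟨a, ha⟩ := Subgroup.mem_zpowers_iff.1 (hζ z)
    refine ⟨a, e, ?_⟩
    rw [hze, ← ha]
    simp
  choose a e hae using h1
  refine ⟨ZMod l × (Fin (Units.rank L) → ZMod l), inferInstance, fun u => ((a u : ZMod l), fun i => (e u i : ZMod l)), ?_, ?_⟩
  · rw [Fintype.card_prod, Fintype.card_fun, ZMod.card, Fintype.card_fin, ← pow_succ']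
    refine Nat.pow_le_pow_right hl ?_
    have h2 := InfinitePlace.card_add_two_mul_card_eq_rank L
    have h3 := InfinitePlace.card_eq_nrRealPlaces_add_nrComplexPlaces L
    have h4 : 0 < Fintype.card (InfinitePlace L) := Fintype.card_pos
    rw [Units.rank]
    omega
  · intro u v huv
    have h2 : (a u : ZMod l) = a v := congrArg Prod.fst huv
    have h3 : ∀ i, (e u i : ZMod l) = e v i := fun i => congrFun (congrArg Prod.snd huv) i
    have h4 : (l : ℤ) ∣ a u - a v := by
      rw [← ZMod.intCast_zmod_eq_zero_iff_dvd]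
      push_cast
      rw [h2, sub_self]
    have h5 : ∀ i, (l : ℤ) ∣ e u i - e v i := by
      intro i
      rw [← ZMod.intCast_zmod_eq_zero_iff_dvd]
      push_cast
      rw [h3 i, sub_self]
    obtain ⟨a', ha'⟩ := h4
    choose e' he' using h5
    refine ⟨(ζ : (𝓞 L)ˣ) ^ a' * ∏ i, Units.fundSystem L i ^ e' i, ?_⟩
    have e1 : a u = a v + a' * l := by linarith
    have e2 : ∀ i, e u i = e v i + e' i * l := fun i => by linarith [he' i]
    conv_lhs => rw [hae u, e1]
    conv_rhs => rw [hae v]
    simp only [e2]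
    rw [mul_pow, ← Finset.prod_pow, zpow_add, zpow_mul, zpow_natCast]
    have h6 : ∀ i, Units.fundSystem L i ^ (e v i + e' i * l) =
        Units.fundSystem L i ^ e v i * (Units.fundSystem L i ^ e' i) ^ l := by
      intro i
      rw [zpow_add, zpow_mul, zpow_natCast]
    rw [Finset.prod_congr rfl fun i _ => h6 i, Finset.prod_mul_distrib]
    exact mul_mul_mul_comm _ _ _ _

end Pool.Agent.Q136.CG
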