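import Pool.Agent.Q136.CG.Ext2
import Pool.Agent.Q136.CG.Tr

set_option autoImplicit false

open NumberField Ideal Module

namespace Pool.Agent.Q136.CG

open Classical in
/-- The classes of the ideals `Q i`, `Q i ^ l = q i`, satisfy few relations. -/
theorem card_kernel (K L : Type) [Field K] [NumberField K] [Field L] [NumberField L] [Algebra K L] (l : ℕ)
    (hl : l.Prime) (hfr : finrank K L = l) (m : ℕ) (hm : 0 < m) {R : ℕ} (q : Fin R → Ideal (𝓞 K))
    (hq : ∀ i, q i ≠ ⊥) (c : Fin R → 𝓞 K) (hc : ∀ i, q i ^ m = span {c i})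
    (hA : ∀ e : Fin R → ℕ, (∏ i, q i ^ e i).IsPrincipal → ∀ i, m ∣ e i)
    (hB : ∀ (h : Fin R → ℕ) (g : 𝓞 K), ∏ i, q i ^ (m * h i) = span {g ^ l} → ∀ i, l ∣ h i)
    (Q : Fin R → Ideal (𝓞 L)) (hQ : ∀ i, Q i ^ l = (q i).map (algebraMap (𝓞 K) (𝓞 L)))
    (hn : ∀ i, relNorm (𝓞 K) (Q i) = q i)
    (S : Finset (Fin R → ℕ)) (hS : ∀ e ∈ S, (∀ i, e i < l * m) ∧ (∏ i, Q i ^ e i).IsPrincipal) :
    S.card ≤ l * l ^ finrank ℚ L := by
  have hc0 : ∀ i, c i ≠ 0 := by
    intro i h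
    have h1 := hc i
    rw [h, span_singleton_eq_bot.2 rfl] at h1
    exact hq i (pow_eq_zero_iff hm.ne' |>.1 h1)
  -- the data attached to a relation
  have hdata : ∀ e ∈ S, ∃ (f : Fin R → ℕ) (β : 𝓞 L) (u : (𝓞 L)ˣ), (∀ i, e i = m * f i) ∧ (∀ i, f i < l) ∧ β ≠ 0 ∧
      β ^ l = algebraMap (𝓞 K) (𝓞 L) (∏ i, c i ^ f i) * u := by
    intro e he
    obtain ⟨hlt, β, hβ⟩ := hS e he
    have hβ' : ∏ i, Q i ^ e i = span {β} := hβ
    have h1 : (∏ i, q i ^ e i).IsPrincipal := by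
      refine ⟨Algebra.intNorm (𝓞 K) (𝓞 L) β, ?_⟩
      have h2 := congrArg (relNorm (𝓞 K)) hβ'
      rw [map_prod, relNorm_singleton] at h2
      rw [Ideal.submodule_span_eq, ← h2]
      exact Finset.prod_congr rfl fun i _ => by rw [map_pow, hn]
    choose f hf using hA e h1
    have hfl : ∀ i, f i < l := fun i => by
      have := hlt i
      rw [hf i, mul_comm l m] at this
      exact Nat.lt_of_mul_lt_mul_left this
    have h3 : span {algebraMap (𝓞 K) (𝓞 L) (∏ i, c i ^ f i)} = span {β ^ l} := by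
      rw [← span_singleton_pow, ← hβ', ← Finset.prod_pow]
      have h4 : ∀ i, (Q i ^ e i) ^ l = (span {c i ^ f i}).map (algebraMap (𝓞 K) (𝓞 L)) := by
        intro i
        rw [← pow_mul, mul_comm (e i), pow_mul, hQ, hf i, pow_mul, ← Ideal.map_pow, hc, ← Ideal.map_pow,
          span_singleton_pow]
      rw [Finset.prod_congr rfl fun i _ => h4 i]
      simp only [Ideal.map_span, Set.image_singleton]
      rw [Ideal.prod_span_singleton, map_prod]
    obtain ⟨u, hu⟩ := Ideal.span_singleton_eq_span_singleton.1 h3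
    refine ⟨f, β, u, hf, hfl, ?_, hu.symm⟩
    rintro rfl
    rw [zero_pow hl.ne_zero] at hu
    have h5 : algebraMap (𝓞 K) (𝓞 L) (∏ i, c i ^ f i) = 0 := (Units.mul_left_eq_zero u).1 hu
    rw [map_eq_zero_iff _ (FaithfulSMul.algebraMap_injective (𝓞 K) (𝓞 L)), Finset.prod_eq_zero_iff] at h5
    obtain ⟨i, -, hi⟩ := h5
    exact pow_ne_zero _ (hc0 i) hi
  obtain ⟨κ, iκ, φ, hκ, hφ⟩ := unit_classes L l hl.pos
  choose! f β u hf hfl hβ0 hβ using hdata
  refine (Finset.card_le_mul_card_image (f := fun e => φ (u e)) S l ?_).trans (Nat.mul_le_mul_left l ?_)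
  swap
  · exact (Finset.card_le_univ _).trans hκ
  intro b hb
  obtain ⟨e₀, he₀, rfl⟩ := Finset.mem_image.1 hb
  have hw : ∀ e ∈ S.filter (fun e => φ (u e) = φ (u e₀)), ∃ w : (𝓞 L)ˣ, u e = u e₀ * w ^ l := fun e he =>
    hφ _ _ (Finset.mem_filter.1 he).2
  choose! w hw using hw
  rw [← hfr]
  -- the radicals
  let Ce : (Fin R → ℕ) → 𝓞 K := fun e => ∏ i, c i ^ f e i
  have hCe : ∀ e, Ce e ≠ 0 := fun e => Finset.prod_ne_zero_iff.2 fun i _ => pow_ne_zero _ (hc0 i)
  have hCe' : ∀ e, ((Ce e : 𝓞 K) : K) ≠ 0 := fun e => by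
    have := hCe e
    exact_mod_cast this
  have hγ : ∀ e ∈ S.filter (fun e => φ (u e) = φ (u e₀)),
      (((β e : 𝓞 L) : L) / ((w e : 𝓞 L) : L)) ^ l = algebraMap K L (Ce e : K) * ((u e₀ : 𝓞 L) : L) := by
    intro e he
    have h1 := hβ e (Finset.mem_filter.1 he).1
    rw [hw e he] at h1
    have h2 : ((β e : 𝓞 L) : L) ^ l = algebraMap K L (Ce e : K) * (((u e₀ : 𝓞 L) : L) * ((w e : 𝓞 L) : L) ^ l) := by
      have h3 := congrArg (algebraMap (𝓞 L) L) h1
      rw [map_pow, map_mul, Units.val_mul, Units.val_pow_eq_pow_val, map_mul, map_pow] at h3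
      rw [h3]
      rfl
    have hw0 : ((w e : 𝓞 L) : L) ≠ 0 := by
      have := (w e).ne_zero
      exact_mod_cast this
    rw [div_pow, h2]
    field_simp
  have hγ0 : ∀ e ∈ S.filter (fun e => φ (u e) = φ (u e₀)), ((β e : 𝓞 L) : L) / ((w e : 𝓞 L) : L) ≠ 0 := by
    intro e he
    have h1 := hβ0 e (Finset.mem_filter.1 he).1
    have h2 := (w e).ne_zero
    refine div_ne_zero ?_ ?_
    · exact_mod_cast h1
    · exact_mod_cast h2
  refine card_radicals hl _ (fun e => ((β e : 𝓞 L) : L) / ((w e : 𝓞 L) : L)) hγ0 ?_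
  intro e he e' he' hne
  refine ⟨(Ce e : K) / (Ce e' : K), ?_, ?_⟩
  · rw [div_pow, hγ e he, hγ e' he', map_div₀]
    have hu0 : ((u e₀ : 𝓞 L) : L) ≠ 0 := by
      have := (u e₀).ne_zero
      exact_mod_cast this
    exact mul_div_mul_right _ _ hu0
  · intro g hg
    apply hne
    have h1 : (g * (Ce e' : K)) ^ l = ((Ce e * Ce e' ^ (l - 1) : 𝓞 K) : K) := by
      rw [mul_pow, hg]
      push_cast
      rw [div_mul_eq_mul_div, div_eq_iff (hCe' e'), mul_assoc, ← pow_succ, Nat.sub_add_cancel hl.one_le]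
    have hint : IsIntegral ℤ (g * (Ce e' : K)) := by
      refine IsIntegral.of_pow (n := l) hl.pos ?_
      rw [h1]
      exact RingOfIntegers.isIntegral_coe _
    obtain ⟨g', hg'⟩ : ∃ g' : 𝓞 K, (g' : K) = g * (Ce e' : K) := ⟨⟨_, hint⟩, rfl⟩
    have h2 : g' ^ l = Ce e * Ce e' ^ (l - 1) := by
      refine FaithfulSMul.algebraMap_injective (𝓞 K) K ?_
      rw [map_pow]
      change (g' : K) ^ l = _
      rw [hg']
      exact h1
    have h3 : ∏ i, q i ^ (m * (f e i + (l - 1) * f e' i)) = span {g' ^ l} := by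
      rw [h2]
      have h4 : ∀ i, q i ^ (m * (f e i + (l - 1) * f e' i)) = span {c i ^ f e i * (c i ^ f e' i) ^ (l - 1)} := by
        intro i
        rw [pow_mul, hc, span_singleton_pow, pow_add, mul_comm (l - 1), pow_mul]
      rw [Finset.prod_congr rfl fun i _ => h4 i, Ideal.prod_span_singleton, Finset.prod_mul_distrib,
        Finset.prod_pow]
    have h5 := hB _ _ h3
    funext i
    have he1 := (Finset.mem_filter.1 he).1
    have he1' := (Finset.mem_filter.1 he').1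
    rw [hf e he1 i, hf e' he1' i]
    congr 1
    have h6 := h5 i
    have h7 := hfl e he1 i
    have h8 := hfl e' he1' i
    have h9 : (l : ℤ) ∣ (f e i : ℤ) - f e' i := by
      have h10 : (l : ℤ) ∣ (f e i : ℤ) + ((l : ℤ) - 1) * f e' i := by
        have := Int.natCast_dvd_natCast.2 h6
        push_cast [hl.one_le] at this
        exact this
      have h11 : (f e i : ℤ) - f e' i = ((f e i : ℤ) + ((l : ℤ) - 1) * f e' i) - l * f e' i := by ring
      rw [h11]
      exact dvd_sub h10 (Dvd.intro _ rfl)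
    have h12 : (f e i : ℤ) - f e' i = 0 := by
      refine Int.eq_zero_of_abs_lt_dvd h9 ?_
      rw [abs_lt]
      constructor <;> omega
    omega

end Pool.Agent.Q136.CG
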