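import Mathlib

set_option autoImplicit false

open NumberField Ideal
open scoped nonZeroDivisors

namespace Pool.Agent.Q136.CG

section Norm

variable (R S : Type*) [CommRing R] [IsDedekindDomain R] [CommRing S] [IsDedekindDomain S] [Algebra R S]
  [Module.Finite R S] [Module.IsTorsionFree R S]

/-- the norm of a nonzero ideal -/
noncomputable def nm (I : (Ideal S)⁰) : (Ideal R)⁰ :=
  ⟨relNorm R I.1, mem_nonZeroDivisors_of_ne_zero (by
    rw [Ideal.zero_eq_bot, Ne, relNorm_eq_bot_iff]
    exact nonZeroDivisors.coe_ne_zero I)⟩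

theorem nm_congr {I J : (Ideal S)⁰} (h : ClassGroup.mk0 I = ClassGroup.mk0 J) :
    ClassGroup.mk0 (nm R S I) = ClassGroup.mk0 (nm R S J) := by
  rw [ClassGroup.mk0_eq_mk0_iff] at h ⊢
  obtain ⟨x, y, hx, hy, h⟩ := h
  refine ⟨Algebra.intNorm R S x, Algebra.intNorm R S y, ?_, ?_, ?_⟩
  · exact Algebra.intNorm_ne_zero.2 hx
  · exact Algebra.intNorm_ne_zero.2 hy
  · have h1 := congrArg (relNorm R) h
    rw [map_mul, map_mul, relNorm_singleton, relNorm_singleton] at h1
    exact h1

theorem nm_mul (I J : (Ideal S)⁰) : nm R S (I * J) = nm R S I * nm R S J :=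
  Subtype.ext (map_mul (relNorm R) I.1 J.1)

/-- the norm homomorphism of the class groups -/
noncomputable def normHom : ClassGroup S →* ClassGroup R :=
  MonoidHom.mk' (fun c => ClassGroup.mk0 (nm R S (Function.surjInv ClassGroup.mk0_surjective c))) (by
    intro c c'
    rw [← map_mul, ← nm_mul]
    refine nm_congr R S ?_
    rw [map_mul, Function.surjInv_eq ClassGroup.mk0_surjective, Function.surjInv_eq ClassGroup.mk0_surjective,
      Function.surjInv_eq ClassGroup.mk0_surjective])

theorem normHom_mk0 (I : (Ideal S)⁰) : normHom R S (ClassGroup.mk0 I) = ClassGroup.mk0 (nm R S I) := by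
  change ClassGroup.mk0 (nm R S (Function.surjInv ClassGroup.mk0_surjective (ClassGroup.mk0 I))) = _
  exact nm_congr R S (Function.surjInv_eq _ _)

end Norm

/-- A quotient of a finite commutative group is isomorphic to a subgroup. -/
theorem exists_injective {G H : Type*} [CommGroup G] [CommGroup H] [Finite G] [Finite H] (f : G →* H)
    (hf : Function.Surjective f) : ∃ g : H →* G, Function.Injective g := by
  obtain ⟨e⟩ := CommGroup.monoidHom_mulEquiv_of_hasEnoughRootsOfUnity G ℂ
  obtain ⟨e'⟩ := CommGroup.monoidHom_mulEquiv_of_hasEnoughRootsOfUnity H ℂ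
  refine ⟨(e.toMonoidHom.comp (MonoidHom.compHom' f)).comp e'.symm.toMonoidHom, ?_⟩
  intro a b hab
  have h1 : (MonoidHom.compHom' f) (e'.symm a) = (MonoidHom.compHom' f) (e'.symm b) := e.injective hab
  refine e'.symm.injective ?_
  refine MonoidHom.ext fun x => ?_
  obtain ⟨y, rfl⟩ := hf x
  exact DFunLike.congr_fun h1 y

end Pool.Agent.Q136.CG
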