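import Mathlib

set_option autoImplicit false

open NumberField Ideal Module

namespace Pool.Agent.Q136.CG

variable {K : Type} [Field K] [NumberField K]

theorem exists_basis {D : ℕ} (hD : 0 < D) (h2 : finrank ℚ K = 2) (x : K)
    (hx : x ^ 2 = -(D : K)) : ∃ b : Basis (Fin 2) ℚ K, b 0 = 1 ∧ b 1 = x := by
  have hli : LinearIndependent ℚ ![(1:K), x] := by
    rw [LinearIndependent.pair_iff]
    intro s t hst
    by_cases ht : t = 0
    · subst ht
      simp only [zero_smul, add_zero, smul_eq_zero, one_ne_zero, or_false] at hst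
      exact ⟨hst, rfl⟩
    · exfalso
      have htK : (t : K) ≠ 0 := by exact_mod_cast ht
      have h3 : x = ((-s / t : ℚ) : K) := by
        rw [Rat.smul_def, Rat.smul_def, mul_one] at hst
        push_cast
        rw [eq_div_iff htK]
        linear_combination hst
      rw [h3] at hx
      have h4 : (-s / t) ^ 2 = -(D : ℚ) := by exact_mod_cast hx
      have h5 : (0 : ℚ) < D := by exact_mod_cast hD
      nlinarith [sq_nonneg (-s / t)]
  refine ⟨basisOfLinearIndependentOfCardEqFinrank hli (by simp [h2]), ?_, ?_⟩ <;> simp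

section
variable {D : ℕ} {x : K} (hx : x ^ 2 = -(D : K)) (b : Basis (Fin 2) ℚ K) (h0 : b 0 = 1) (h1 : b 1 = x)
include h0 h1

theorem repr_eq (p q : ℚ) : b.repr ((p:K) + q * x) 0 = p ∧ b.repr ((p:K) + q * x) 1 = q := by
  have h : (p:K) + q * x = p • b 0 + q • b 1 := by
    rw [h0, h1, Rat.smul_def, Rat.smul_def, mul_one]
  rw [h]
  simp

theorem ex_coord (α : K) : ∃ p q : ℚ, α = (p:K) + q * x := by
  refine ⟨b.repr α 0, b.repr α 1, ?_⟩
  have h := b.sum_repr α
  rw [Fin.sum_univ_two, h0, h1, Rat.smul_def, Rat.smul_def, mul_one] at h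
  exact h.symm

include hx

theorem mat (p q : ℚ) : Algebra.leftMulMatrix b ((p:K) + q * x) = !![p, -(D * q); q, p] := by
  have e0 : ((p:K) + q * x) * b 0 = (p:K) + q * x := by rw [h0, mul_one]
  have e1 : ((p:K) + q * x) * b 1 = ((-(D * q) : ℚ) : K) + p * x := by
    rw [h1]
    push_cast
    linear_combination (q:K) * hx
  ext i j
  rw [Algebra.leftMulMatrix_eq_repr_mul]
  fin_cases j
  · simp only [Fin.zero_eta, e0]
    fin_cases i
    · simpa using (repr_eq b h0 h1 p q).1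
    · simpa using (repr_eq b h0 h1 p q).2
  · simp only [Fin.mk_one, e1]
    fin_cases i
    · simpa using (repr_eq b h0 h1 (-(D * q)) p).1
    · simpa using (repr_eq b h0 h1 (-(D * q)) p).2

theorem tr (p q : ℚ) : Algebra.trace ℚ K ((p:K) + q * x) = 2 * p := by
  rw [Algebra.trace_eq_matrix_trace b, mat hx b h0 h1]
  simp [Matrix.trace, Fin.sum_univ_two]
  ring

theorem nmK (p q : ℚ) : Algebra.norm ℚ ((p:K) + q * x) = p ^ 2 + D * q ^ 2 := by
  rw [Algebra.norm_eq_matrix_det b, mat hx b h0 h1, Matrix.det_fin_two]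
  simp
  ring

theorem int_coord (hs : Squarefree D) (α : 𝓞 K) : ∃ t s : ℤ,
    t ^ 2 + D * s ^ 2 = 4 * Algebra.norm ℤ α := by
  obtain ⟨p, q, h⟩ := ex_coord b h0 h1 (α : K)
  have ht : (Algebra.trace ℤ (𝓞 K) α : ℚ) = 2 * p := by
    rw [Algebra.coe_trace_int, h, tr hx b h0 h1]
  have hn : (Algebra.norm ℤ α : ℚ) = p ^ 2 + D * q ^ 2 := by
    rw [Algebra.coe_norm_int, h, nmK hx b h0 h1]
  set t := Algebra.trace ℤ (𝓞 K) α
  set n := Algebra.norm ℤ α
  have e1 : (D:ℚ) * (2 * q) ^ 2 = ((4 * n - t ^ 2 : ℤ) : ℚ) := by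
    push_cast
    rw [ht, hn]
    ring
  set r : ℚ := 2 * q with hr
  have e2 : (D:ℤ) * r.num ^ 2 = (4 * n - t ^ 2) * (r.den : ℤ) ^ 2 := by
    have hden : (r.den : ℚ) ≠ 0 := by exact_mod_cast r.den_ne_zero
    have e3 : (r.num : ℚ) = r * r.den := (Rat.mul_den_eq_num r).symm
    have e4 : (((D:ℤ) * r.num ^ 2 : ℤ) : ℚ) = (((4 * n - t ^ 2) * (r.den : ℤ) ^ 2 : ℤ) : ℚ) := by
      push_cast at e1 ⊢
      rw [e3]
      linear_combination (r.den : ℚ) ^ 2 * e1
    exact_mod_cast e4
  have hcop : IsCoprime ((r.den : ℤ) ^ 2) (r.num ^ 2) := by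
    apply IsCoprime.pow
    rw [Int.isCoprime_iff_gcd_eq_one]
    have := r.reduced
    rw [Nat.Coprime, Nat.gcd_comm] at this
    simpa [Int.gcd] using this
  have hdvd : (r.den : ℤ) ^ 2 ∣ (D:ℤ) := by
    apply hcop.dvd_of_dvd_mul_right
    rw [e2]
    exact Dvd.intro_left _ rfl
  have hdvd2 : r.den * r.den ∣ D := by
    rw [← sq]
    exact_mod_cast hdvd
  have hden := Nat.isUnit_iff.1 (hs _ hdvd2)
  refine ⟨t, r.num, ?_⟩
  rw [hden] at e2
  push_cast at e2
  linarith

end

/-- A principal ideal whose norm is an odd divisor of `D`, `D` squarefree and even, is the unit ideal. -/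
theorem principal {D : ℕ} (hD : 0 < D) (h2 : finrank ℚ K = 2) (x : K) (hx : x ^ 2 = -(D : K))
    (hs : Squarefree D) (h4 : D % 4 = 2) (β : 𝓞 K) (m : ℕ) (hm : absNorm (span {β}) = m) (hmD : 2 * m ≤ D)
    (hms : Squarefree m) : m = 1 := by
  obtain ⟨b, h0, h1⟩ := exists_basis hD h2 x hx
  obtain ⟨t, s, hts⟩ := int_coord hx b h0 h1 hs β
  rw [absNorm_span_singleton] at hm
  have hn : Algebra.norm ℤ β = m := by
    have h3 : 0 ≤ Algebra.norm ℤ β := by
      have : (0 : ℤ) ≤ t ^ 2 + D * s ^ 2 := by positivity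
      omega
    rw [← hm]
    exact (Int.natAbs_of_nonneg h3).symm
  rw [hn] at hts
  have hD' : (0 : ℤ) < D := by exact_mod_cast hD
  have hmD' : (2 : ℤ) * m ≤ D := by exact_mod_cast hmD
  have hs1 : s ^ 2 < 4 := by nlinarith [sq_nonneg t]
  have hs2 : s = 0 ∨ s = 1 ∨ s = -1 := by
    have : -2 < s := by nlinarith
    have : s < 2 := by nlinarith
    omega
  have h4' : (D : ℤ) % 4 = 2 := by exact_mod_cast h4
  rcases hs2 with rfl | h
  · have h5 : t ^ 2 = 4 * (m : ℤ) := by linarith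
    have h6 : Even t := by
      have : Even (t ^ 2) := ⟨2 * m, by linarith⟩
      rwa [Int.even_pow' two_ne_zero] at this
    obtain ⟨r, rfl⟩ := h6
    have h7 : r * r = m := by nlinarith
    have h8 : r.natAbs * r.natAbs = m := by
      have := congrArg Int.natAbs h7
      rwa [Int.natAbs_mul, Int.natAbs_natCast] at this
    have h9 := hms r.natAbs ⟨1, by rw [mul_one, h8]⟩
    rw [Nat.isUnit_iff] at h9
    rw [← h8, h9]
  · exfalso
    have h5 : s ^ 2 = 1 := by rcases h with rfl | rfl <;> norm_num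
    rw [h5] at hts
    have h6 : t ^ 2 % 4 = 0 ∨ t ^ 2 % 4 = 1 := by
      rcases Int.even_or_odd' t with ⟨r, rfl | rfl⟩
      · left
        ring_nf
        omega
      · right
        ring_nf
        omega
    omega

end Pool.Agent.Q136.CG
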