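import Pool.Agent.Q136.CG.Ker
import Pool.Agent.Q136.CG.Data
import Pool.Agent.Q136.CG.Emb
import Pool.Agent.Q136.CG.Four

set_option autoImplicit false

open NumberField Ideal Module

namespace Pool.Agent.Q136.CG

open scoped nonZeroDivisors

/-- the class group of `K` contains `(ℤ/m)^r` -/
def HasRank (m r : ℕ) (K : Type) [Field K] [NumberField K] : Prop :=
  ∃ f : Multiplicative (Fin r → ZMod m) →* ClassGroup (𝓞 K), Function.Injective f

/-- `S d m`: the `m`-rank of the class groups of the number fields of degree `d` is unbounded. -/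
def S (d m : ℕ) : Prop :=
  ∀ r : ℕ, ∃ (K : Type) (_ : Field K) (_ : NumberField K), finrank ℚ K = d ∧ HasRank m r K

theorem step_prime (d m l : ℕ) (hl : l.Prime) (hm : 0 < m) (K : Type) [Field K] [NumberField K]
    (hd : finrank ℚ K = d) (r : ℕ) (h : HasRank m (r + l * l ^ (l * d)) K) :
    ∃ (L : Type) (_ : Field L) (_ : NumberField L) (_ : Algebra K L), finrank K L = l ∧ HasRank (l * m) r L := by
  obtain ⟨f, hf⟩ := h
  obtain ⟨q, c, hq, hc, hA, hB⟩ := exists_data K l m hl hm f hf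
  obtain ⟨L, j1, j2, j3, hL, hQ⟩ := exists_ext3 K l hl.one_le q hq
  choose Q hQ0 hQ1 hQ2 using hQ
  have hdL : finrank ℚ L = l * d := by
    have : IsScalarTower ℚ K L := inferInstance
    rw [← Module.finrank_mul_finrank ℚ K L, hd, hL, mul_comm]
  refine ⟨L, j1, j2, j3, hL, ?_⟩
  let Q' : Fin (r + l * l ^ (l * d)) → (Ideal (𝓞 L))⁰ := fun i => ⟨Q i, mem_nonZeroDivisors_of_ne_zero (hQ0 i)⟩
  have hpow : ∀ i, ClassGroup.mk0 (Q' i) ^ (l * m) = 1 := by
    intro i
    have h1 : Q i ^ (l * m) = span {algebraMap (𝓞 K) (𝓞 L) (c i)} := by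
      rw [pow_mul, hQ1, ← Ideal.map_pow, hc, Ideal.map_span, Set.image_singleton]
    rw [← map_pow]
    have h4 : ((Q' i ^ (l * m) : (Ideal (𝓞 L))⁰) : Ideal (𝓞 L)).IsPrincipal := by
      rw [SubmonoidClass.coe_pow]
      exact ⟨_, h1⟩
    generalize Q' i ^ (l * m) = M at h4 ⊢
    exact (ClassGroup.mk0_eq_one_iff M.2).2 h4
  refine embed_large (Nat.mul_pos hl.pos hm) le_rfl (fun i => ClassGroup.mk0 (Q' i)) hpow ?_
  intro T hT
  refine (card_kernel K L l hl hL m hm q hq c hc hA hB Q hQ1 hQ2 T fun e he => ?_).trans (by rw [hdL])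
  obtain ⟨h1, h2⟩ := hT e he
  refine ⟨h1, ?_⟩
  have h3 : ClassGroup.mk0 (∏ i, Q' i ^ e i) = 1 := by
    rw [map_prod, ← h2]
    exact Finset.prod_congr rfl fun i _ => map_pow _ _ _
  have h4 : ((∏ i, Q' i ^ e i : (Ideal (𝓞 L))⁰) : Ideal (𝓞 L)).IsPrincipal := by
    generalize ∏ i, Q' i ^ e i = M at h3 ⊢
    exact (ClassGroup.mk0_eq_one_iff M.2).1 h3
  rw [Submonoid.coe_finsetProd] at h4
  simpa only [SubmonoidClass.coe_pow] using h4

theorem step (k : ℕ) (hk : 0 < k) : ∀ (d m : ℕ), 0 < m → ∃ C : ℕ, ∀ (K : Type) [Field K] [NumberField K],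
    finrank ℚ K = d → ∀ r : ℕ, HasRank m (r + C) K →
      ∃ (L : Type) (_ : Field L) (_ : NumberField L) (_ : Algebra K L),
        finrank K L = k ∧ HasRank (k * m) r L := by
  induction k using Nat.recOnMul with
  | zero => exact absurd hk (lt_irrefl 0)
  | one =>
    intro d m _
    refine ⟨0, fun K _ _ _ r h => ⟨K, inferInstance, inferInstance, inferInstance, Module.finrank_self K, ?_⟩⟩
    rwa [one_mul]
  | prime l hl =>
    intro d m hm
    exact ⟨l * l ^ (l * d), fun K _ _ hd r h => step_prime d m l hl hm K hd r h⟩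
  | mul a b ha hb =>
    intro d m hm
    have ha0 : 0 < a := Nat.pos_of_ne_zero fun h => by simp [h] at hk
    have hb0 : 0 < b := Nat.pos_of_ne_zero fun h => by simp [h] at hk
    obtain ⟨C₁, h₁⟩ := hb hb0 d m hm
    obtain ⟨C₂, h₂⟩ := ha ha0 (b * d) (b * m) (Nat.mul_pos hb0 hm)
    refine ⟨C₂ + C₁, fun K _ _ hd r h => ?_⟩
    obtain ⟨M, i1, i2, i3, hM, hM'⟩ := h₁ K hd (r + C₂) (by rwa [add_assoc])
    have hdM : finrank ℚ M = b * d := by
      have : IsScalarTower ℚ K M := inferInstance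
      rw [← Module.finrank_mul_finrank ℚ K M, hd, hM, mul_comm]
    obtain ⟨L, j1, j2, j3, hL, hL'⟩ := h₂ M hdM r hM'
    let j4 : Algebra K L := ((algebraMap M L).comp (algebraMap K M)).toAlgebra
    have : IsScalarTower K M L := IsScalarTower.of_algebraMap_eq fun _ => rfl
    refine ⟨L, j1, j2, j4, ?_, ?_⟩
    · rw [← Module.finrank_mul_finrank K M L, hM, hL, mul_comm]
    · rwa [mul_assoc]

theorem S_step (d m k : ℕ) (hm : 0 < m) (hk : 0 < k) (h : S d m) : S (k * d) (k * m) := by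
  intro r
  obtain ⟨C, hC⟩ := step k hk d m hm
  obtain ⟨K, i1, i2, hd, hK⟩ := h (r + C)
  obtain ⟨L, j1, j2, j3, hL, hL'⟩ := hC K hd r hK
  refine ⟨L, j1, j2, ?_, hL'⟩
  have : IsScalarTower ℚ K L := inferInstance
  rw [← Module.finrank_mul_finrank ℚ K L, hd, hL, mul_comm]

theorem S_dvd (d m n : ℕ) (hn : 0 < n) (hmn : m ∣ n) (h : S d n) : S d m := by
  intro r
  obtain ⟨K, i1, i2, hd, f, hf⟩ := h r
  refine ⟨K, i1, i2, hd, ?_⟩
  obtain ⟨k, rfl⟩ := hmn
  have hm0 : 0 < m := Nat.pos_of_ne_zero fun h => by simp [h] at hn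
  have hk0 : 0 < k := Nat.pos_of_ne_zero fun h => by simp [h] at hn
  -- the embedding `ZMod m → ZMod (m * k)`, multiplication by `k`
  let g₀ : ZMod m →+ ZMod (m * k) := ZMod.lift m ⟨(AddMonoidHom.mulLeft (k : ZMod (m * k))).comp
    (Int.castAddHom (ZMod (m * k))), by
      have : (k : ZMod (m * k)) * (((m : ℕ) : ℤ) : ZMod (m * k)) = 0 := by
        rw [Int.cast_natCast, ← Nat.cast_mul, mul_comm, ZMod.natCast_self]
      exact this⟩
  have hg₀ : Function.Injective g₀ := by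
    rw [ZMod.lift_injective]
    intro a ha
    have ha' : (k : ZMod (m * k)) * ((a : ℤ) : ZMod (m * k)) = 0 := ha
    have h1 : (((k : ℤ) * a : ℤ) : ZMod (m * k)) = 0 := by push_cast; exact ha'
    rw [ZMod.intCast_zmod_eq_zero_iff_dvd] at h1
    have h2 : (k : ℤ) * m ∣ k * a := by
      rw [mul_comm (k : ℤ) m]
      exact_mod_cast h1
    exact (ZMod.intCast_zmod_eq_zero_iff_dvd a m).2 (Int.dvd_of_mul_dvd_mul_left (by exact_mod_cast hk0.ne') h2)
  let g : (Fin r → ZMod m) →+ (Fin r → ZMod (m * k)) := AddMonoidHom.compLeft g₀ (Fin r)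
  have hg : Function.Injective g := fun a b hab => by
    funext i
    exact hg₀ (congrFun hab i)
  refine ⟨f.comp (AddMonoidHom.toMultiplicative g), hf.comp ?_⟩
  intro a b hab
  exact Multiplicative.toAdd.injective (hg hab)

theorem two_four : S 2 4 := fun r => four r

theorem S_even (d m : ℕ) (hd : 0 < d) (he : Even d) (hm : m ∣ 2 * d) : S d m := by
  obtain ⟨k, rfl⟩ := he
  have hk : 0 < k := by omega
  refine S_dvd (k + k) m (2 * (k + k)) (by omega) hm ?_
  have h := S_step 2 4 k (by norm_num) hk two_four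
  rwa [show k * 2 = k + k by ring, show k * 4 = 2 * (k + k) by ring] at h

theorem S_prime_iff (m : ℕ) (hm : 0 < m) : (∀ d : ℕ, 1 < d → S d m) ↔ ∀ p : ℕ, p.Prime → S p m := by
  constructor
  · intro h p hp
    exact h p hp.one_lt
  · intro h d hd
    obtain ⟨k, hk⟩ := Nat.minFac_dvd d
    have hp : d.minFac.Prime := Nat.minFac_prime (by omega)
    have hk0 : 0 < k := Nat.pos_of_ne_zero fun h => by rw [h, mul_zero] at hk; omega
    have h1 := S_step d.minFac m k hm hk0 (h _ hp)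
    rw [mul_comm k d.minFac, ← hk] at h1
    exact S_dvd d m (k * m) (Nat.mul_pos hk0 hm) (dvd_mul_left m k) h1

end Pool.Agent.Q136.CG
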